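import Mathlib
import Pool.Agent.Helper64.HK.Defs

/-!
# Sums of decomposable tensors
-/

namespace Pool.Agent.Helper76.HK

open Pool.Agent.Helper64.HK
open Pool.Agent.Helper28.HN (I aff)

section

variable {k m : ℕ} {a : Fin (k + 1) → Fin (m + 1)} {S : Type*} [CommRing S] {T : Type*} [Fintype T]

/-- A linear form. -/
def li (α v : I m → S) : S := ∑ l, α l * v l

/-- The coefficients of a sum of decomposable tensors. -/
def cD (α β : Fin (m + 1) → T → Fin (k + 1) → I m → S) : Ix a → S :=
  fun e => ∑ t, (∏ j, α e.1 t j (e.2.1 j)) * ∏ j : {j // a j = e.1}, β e.1 t j.1 (e.2.2 j)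

theorem Mf_cD (α β : Fin (m + 1) → T → Fin (k + 1) → I m → S) (i : Fin (m + 1))
    (U V : Fin (k + 1) → I m → S) : Mf (cD α β : Ix a → S) i U V =
      ∑ t, (∏ j, li (α i t j) (U j)) * ∏ j : {j // a j = i}, li (β i t j.1) (V j.1) := by
  unfold Mf cD li
  simp only [Finset.prod_univ_sum, Fintype.piFinset_univ]
  rw [Finset.sum_congr rfl fun p _ => Finset.sum_congr rfl fun q _ => by
    rw [Finset.sum_mul, Finset.sum_mul]]
  rw [Finset.sum_congr rfl fun p _ => Finset.sum_comm, Finset.sum_comm]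
  refine Finset.sum_congr rfl fun t _ => ?_
  rw [Finset.sum_mul]
  refine Finset.sum_congr rfl fun p _ => ?_
  rw [Finset.mul_sum]
  refine Finset.sum_congr rfl fun q _ => ?_
  rw [Finset.prod_mul_distrib, Finset.prod_mul_distrib]
  ring

end

end Pool.Agent.Helper76.HK
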