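import Mathlib
import Pool.Agent.Helper76.HK.Ten

/-!
# The example: the coefficients, and the values of the multilinear forms
-/

namespace Pool.Agent.Helper76.HK

open Pool.Agent.Helper64.HK
open Pool.Agent.Helper28.HN (I aff)

/-- Parameters: factors `j1`, `j2`, coordinates `h` (of `j1`), `p`, `q` (of `j2`), the power of `z` in
the relations. -/
structure Par (k m : ℕ) where
  j1 : Fin k
  j2 : Fin k
  h : Fin (m + 1)
  p : Fin (m + 1)
  q : Fin (m + 1)
  dd : Fin k → Fin m → Fin 3
  /-- the exponents of the directions -/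
  ep : Fin k → Fin (m + 1) → ℕ
  h12 : j1 ≠ j2
  hl : ∀ j, ep j (Fin.last m) = 0
  hs : ∀ j s, ep j s.castSucc = ep j s.succ + dd j s

/-- Numbers: the derivative `f j d l` of the form on the line (`z ^ d * u (j, l)`), `zy`, `θ`. -/
structure Num (k m : ℕ) (S : Type*) where
  f : Fin k → Fin 3 → Fin (m + 1) → S
  zy : S
  θ : S

section

variable {k m : ℕ} (a : Fin (k + 1) → Fin (m + 1)) {S : Type*} [CommRing S] (P : Par k m)
  (N : Num k m S)

/-- Linear form: a coordinate. -/
def e_ (l : I m) : I m → S := Pi.single l 1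

/-- The relation number `s` in the factor `j.succ`. -/
def rl (j : Fin k) (s : Fin m) (d : Fin 3) (l : Fin (m + 1)) : S :=
  (if d = 0 ∧ l = s.castSucc then 1 else 0) - (if d = P.dd j s ∧ l = s.succ then 1 else 0)

/-- The sign of a form. -/
def sn (i : Fin (m + 1)) : S := if i = a 0 then 1 else -1

/-- The linear parts. -/
def gg (i : Fin (m + 1)) (j : Fin k) (d : Fin 3) (l : Fin (m + 1)) : S :=
  (∑ s : Fin m, if i = (a j.succ).succAbove s then rl P j s d l else 0) +
  if i = a j.succ then sn a i * (N.f j d l - ∑ s : Fin m, sn a ((a j.succ).succAbove s) * rl P j s d l)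
  else 0

/-- The linear form in `y` of the base term. -/
def bs (i : Fin (m + 1)) : I m → S :=
  fun l => ∑ s : Fin m, if i = a 0 ∨ i = (a 0).succAbove s then e_ s.succ.succ l else 0

/-- The terms. -/
abbrev Tm (k : ℕ) := Unit ⊕ (Fin k × Fin 3) ⊕ Fin 3 ⊕ Fin k

/-- The linear forms of the first slots. -/
def al (i : Fin (m + 1)) : Tm k → Fin (k + 1) → I m → S
  | .inl _ => Fin.cons (bs a i) fun _ => e_ 0
  | .inr (.inl (j, d)) => Fin.cons (if d = 0 then e_ 0 else e_ 1)
      (Function.update (fun _ => e_ 0) j (Fin.cons 0 (gg a P N i j d)))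
  | .inr (.inr (.inl 0)) => Fin.cons (if i = a P.j1.succ then e_ 1 - N.zy • e_ 0 else 0)
      (Function.update (fun _ => e_ 0) P.j1 (e_ P.h.succ))
  | .inr (.inr (.inl 1)) => Fin.cons (if i = a P.j1.succ then e_ 0 else 0)
      (Function.update (Function.update (fun _ => e_ 0) P.j1 (e_ P.h.succ)) P.j2 (e_ P.p.succ))
  | .inr (.inr (.inl 2)) => Fin.cons (if i = a P.j1.succ then N.θ • (e_ 1 - e_ 0) else 0)
      (Function.update (Function.update (fun _ => e_ 0) P.j1 (e_ P.h.succ)) P.j2 (e_ P.q.succ))
  | .inr (.inr (.inr j)) => Fin.cons (if i = a j.succ ∧ j ≠ P.j1 then e_ 0 else 0)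
      (Function.update (fun _ => e_ 0) j (e_ P.q.succ))

/-- The linear forms of the second slots. -/
def be : Tm k → Fin (k + 1) → I m → S
  | .inl _ => fun _ => e_ 0
  | .inr (.inl (_, d)) => Fin.cons (if d = 2 then e_ 1 else e_ 0) fun _ => e_ 0
  | .inr (.inr (.inl 0)) => Fin.cons (e_ 0) (Function.update (fun _ => e_ 0) P.j1 (e_ P.h.succ))
  | .inr (.inr (.inl 1)) => Fin.cons (e_ 0) (Function.update (fun _ => e_ 0) P.j1 (e_ P.h.succ))
  | .inr (.inr (.inl 2)) => fun _ => e_ 0
  | .inr (.inr (.inr j)) => Fin.cons (e_ 0) (Function.update (fun _ => e_ 0) j (e_ P.q.succ))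

/-- The coefficients of the example. -/
def c0 : Ix a → S := cD (al a P N) fun _ => be P

end

/-! ## Products of values of linear forms -/

section prods

variable {k m : ℕ} {a : Fin (k + 1) → Fin (m + 1)} {S : Type*} [CommRing S]

theorem li_e (l : I m) (v : I m → S) : li (e_ l) v = v l := by
  unfold li e_
  rw [Finset.sum_eq_single l]
  · simp
  · intro b _ hb
    rw [Pi.single_eq_of_ne hb, zero_mul]
  · intro h
    exact absurd (Finset.mem_univ _) h

theorem li_zero (v : I m → S) : li (0 : I m → S) v = 0 := by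
  simp [li]

theorem li_sub (α β v : I m → S) : li (α - β) v = li α v - li β v := by
  unfold li
  rw [← Finset.sum_sub_distrib]
  exact Finset.sum_congr rfl fun l _ => by rw [Pi.sub_apply]; ring

theorem li_smul (r : S) (α v : I m → S) : li (r • α) v = r * li α v := by
  unfold li
  rw [Finset.mul_sum]
  exact Finset.sum_congr rfl fun l _ => by rw [Pi.smul_apply, smul_eq_mul]; ring

theorem li_cons (g : Fin (m + 1) → S) (v : I m → S) :
    li (Fin.cons 0 g : I m → S) v = ∑ l, g l * v l.succ := by
  unfold li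
  rw [Fin.sum_univ_succ]
  simp

/-- Product over the factors, first slots. -/
theorem prodU (A : I m → S) (B : Fin k → I m → S) (U : Fin (k + 1) → I m → S) :
    ∏ j, li ((Fin.cons A B : Fin (k + 1) → I m → S) j) (U j) =
      li A (U 0) * ∏ j : Fin k, li (B j) (U j.succ) := by
  rw [Fin.prod_univ_succ]
  rfl

/-- Product over the factors, second slots. -/
theorem prodV (i : Fin (m + 1)) (B V : Fin (k + 1) → I m → S) :
    ∏ j : {j // a j = i}, li (B j.1) (V j.1) =
      (if a 0 = i then li (B 0) (V 0) else 1) *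
        ∏ j : Fin k, if a j.succ = i then li (B j.succ) (V j.succ) else 1 := by
  have h1 : ∏ j : {j // a j = i}, li (B j.1) (V j.1) =
      ∏ j, if a j = i then li (B j) (V j) else 1 := by
    rw [Finset.prod_ite, Finset.prod_const_one, mul_one]
    exact (Finset.prod_subtype (Finset.univ.filter fun j => a j = i) (p := fun j => a j = i)
      (fun x => by simp) fun j => li (B j) (V j)).symm
  rw [h1, Fin.prod_univ_succ]

theorem prod0 (X : Fin k → I m → S) (h : ∀ j, X j 0 = 1) : ∏ j, li (e_ 0) (X j) = 1 :=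
  Finset.prod_eq_one fun j _ => by rw [li_e, h]

theorem prod1 (X : Fin k → I m → S) (j1 : Fin k) (h : ∀ j, j ≠ j1 → X j 0 = 1) (g : I m → S) :
    ∏ j, li (Function.update (fun _ => e_ 0) j1 g j) (X j) = li g (X j1) := by
  rw [Finset.prod_eq_single j1]
  · rw [Function.update_self]
  · intro b _ hb
    rw [Function.update_of_ne hb, li_e, h b hb]
  · intro h
    exact absurd (Finset.mem_univ _) h

theorem prod2 (X : Fin k → I m → S) (j1 j2 : Fin k) (h12 : j1 ≠ j2)
    (h : ∀ j, j ≠ j1 → j ≠ j2 → X j 0 = 1) (g g' : I m → S) :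
    ∏ j, li (Function.update (Function.update (fun _ => e_ 0) j1 g) j2 g' j) (X j) =
      li g (X j1) * li g' (X j2) := by
  rw [← Finset.mul_prod_erase Finset.univ _ (Finset.mem_univ j2), Function.update_self, mul_comm]
  congr 1
  rw [Finset.prod_eq_single j1]
  · rw [Function.update_of_ne h12, Function.update_self]
  · intro b hb hb1
    have hb2 := (Finset.mem_erase.1 hb).1
    rw [Function.update_of_ne hb2, Function.update_of_ne hb1, li_e, h b hb1 hb2]
  · intro h'
    exact absurd (Finset.mem_erase.2 ⟨h12, Finset.mem_univ _⟩) h'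

/-- A product vanishes if the slot `j` has the form `e_ 0` and the vector has first coordinate 0. -/
theorem prod_z (B X : Fin k → I m → S) (j : Fin k) (hB : B j = e_ 0) (h : X j 0 = 0) :
    ∏ j, li (B j) (X j) = 0 :=
  Finset.prod_eq_zero (Finset.mem_univ j) (by rw [hB, li_e, h])

theorem prodi (i : Fin (m + 1)) (B X : Fin k → I m → S)
    (hB : ∀ j, a j.succ = i → li (B j) (X j) = 1) :
    (∏ j : Fin k, if a j.succ = i then li (B j) (X j) else 1) = 1 :=
  Finset.prod_eq_one fun j _ => by
    split_ifs with h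
    · exact hB j h
    · rfl

theorem prodi1 (i : Fin (m + 1)) (X : Fin k → I m → S) (j1 : Fin k)
    (h : ∀ j, j ≠ j1 → X j 0 = 1) (g : I m → S) :
    (∏ j : Fin k, if a j.succ = i then li (Function.update (fun _ => e_ 0) j1 g j) (X j) else 1) =
      if a j1.succ = i then li g (X j1) else 1 := by
  rw [Finset.prod_eq_single j1]
  · rw [Function.update_self]
  · intro b _ hb
    rw [Function.update_of_ne hb, li_e, h b hb, ite_self]
  · intro h
    exact absurd (Finset.mem_univ _) h

theorem prodi_z (i : Fin (m + 1)) (B X : Fin k → I m → S) (j : Fin k) (hi : a j.succ = i)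
    (hB : B j = e_ 0) (h : X j 0 = 0) :
    (∏ j : Fin k, if a j.succ = i then li (B j) (X j) else 1) = 0 :=
  Finset.prod_eq_zero (Finset.mem_univ j) (by rw [if_pos hi, hB, li_e, h])

end prods

end Pool.Agent.Helper76.HK
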