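import Mathlib
import Pool.Agent.Helper76.HK.ExDefs

/-!
# The example: the values of the multilinear forms
-/

set_option linter.unusedSectionVars false
set_option linter.unusedVariables false

namespace Pool.Agent.Helper76.HK

open Pool.Agent.Helper64.HK
open Pool.Agent.Helper28.HN (I aff)

section

variable {k m : ℕ} {a : Fin (k + 1) → Fin (m + 1)} {S : Type*} [CommRing S] {P : Par k m}
  {N : Num k m S}

theorem Mf_c0 (i : Fin (m + 1)) (U V : Fin (k + 1) → I m → S) : Mf (c0 a P N) i U V =
    (li (bs a i) (U 0) * ∏ j : Fin k, li (e_ 0) (U j.succ)) *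
      ((if a 0 = i then li (e_ 0) (V 0) else 1) *
        ∏ j : Fin k, if a j.succ = i then li (e_ 0) (V j.succ) else 1) +
    ((∑ j : Fin k, ∑ d : Fin 3, (li (if d = 0 then e_ 0 else e_ 1) (U 0) *
        ∏ j' : Fin k, li (Function.update (fun _ => e_ 0) j (Fin.cons 0 (gg a P N i j d)) j')
          (U j'.succ)) *
      ((if a 0 = i then li (if d = 2 then e_ 1 else e_ 0) (V 0) else 1) *
        ∏ j : Fin k, if a j.succ = i then li (e_ 0) (V j.succ) else 1)) +
    (((li (if i = a P.j1.succ then e_ 1 - N.zy • e_ 0 else 0) (U 0) *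
        ∏ j : Fin k, li (Function.update (fun _ => e_ 0) P.j1 (e_ P.h.succ) j) (U j.succ)) *
      ((if a 0 = i then li (e_ 0) (V 0) else 1) *
        ∏ j : Fin k, if a j.succ = i then
          li (Function.update (fun _ => e_ 0) P.j1 (e_ P.h.succ) j) (V j.succ) else 1) +
      (li (if i = a P.j1.succ then e_ 0 else 0) (U 0) *
        ∏ j : Fin k, li (Function.update (Function.update (fun _ => e_ 0) P.j1 (e_ P.h.succ)) P.j2
          (e_ P.p.succ) j) (U j.succ)) *
      ((if a 0 = i then li (e_ 0) (V 0) else 1) *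
        ∏ j : Fin k, if a j.succ = i then
          li (Function.update (fun _ => e_ 0) P.j1 (e_ P.h.succ) j) (V j.succ) else 1) +
      (li (if i = a P.j1.succ then N.θ • (e_ 1 - e_ 0) else 0) (U 0) *
        ∏ j : Fin k, li (Function.update (Function.update (fun _ => e_ 0) P.j1 (e_ P.h.succ)) P.j2
          (e_ P.q.succ) j) (U j.succ)) *
      ((if a 0 = i then li (e_ 0) (V 0) else 1) *
        ∏ j : Fin k, if a j.succ = i then li (e_ 0) (V j.succ) else 1)) +
    ∑ j : Fin k, (li (if i = a j.succ ∧ j ≠ P.j1 then e_ 0 else 0) (U 0) *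
        ∏ j' : Fin k, li (Function.update (fun _ => e_ 0) j (e_ P.q.succ) j') (U j'.succ)) *
      ((if a 0 = i then li (e_ 0) (V 0) else 1) *
        ∏ j' : Fin k, if a j'.succ = i then
          li (Function.update (fun _ => e_ 0) j (e_ P.q.succ) j') (V j'.succ) else 1))) := by
  unfold c0
  rw [Mf_cD, Fintype.sum_sum_type, Fintype.sum_sum_type, Fintype.sum_sum_type,
    Fintype.sum_prod_type]
  simp only [Fintype.univ_unit, Finset.sum_singleton, prodV]
  rw [Fin.sum_univ_three]
  congr 1
  · rw [show al a P N i (Sum.inl ()) = Fin.cons (bs a i) fun _ => e_ 0 from rfl, prodU]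
    rfl
  congr 1
  · refine Finset.sum_congr rfl fun j _ => Finset.sum_congr rfl fun d _ => ?_
    rw [show al a P N i (Sum.inr (Sum.inl (j, d))) = Fin.cons (if d = 0 then e_ 0 else e_ 1)
      (Function.update (fun _ => e_ 0) j (Fin.cons 0 (gg a P N i j d))) from rfl, prodU]
    rfl
  congr 1
  · congr 1
    · congr 1
      · rw [show al a P N i (Sum.inr (Sum.inr (Sum.inl 0))) =
          Fin.cons (if i = a P.j1.succ then e_ 1 - N.zy • e_ 0 else 0)
          (Function.update (fun _ => e_ 0) P.j1 (e_ P.h.succ)) from rfl, prodU]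
        rfl
      · rw [show al a P N i (Sum.inr (Sum.inr (Sum.inl 1))) =
          Fin.cons (if i = a P.j1.succ then e_ 0 else 0)
          (Function.update (Function.update (fun _ => e_ 0) P.j1 (e_ P.h.succ)) P.j2 (e_ P.p.succ))
          from rfl, prodU]
        rfl
    · rw [show al a P N i (Sum.inr (Sum.inr (Sum.inl 2))) =
          Fin.cons (if i = a P.j1.succ then N.θ • (e_ 1 - e_ 0) else 0)
          (Function.update (Function.update (fun _ => e_ 0) P.j1 (e_ P.h.succ)) P.j2 (e_ P.q.succ))
          from rfl, prodU]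
      rfl
  · refine Finset.sum_congr rfl fun j _ => ?_
    rw [show al a P N i (Sum.inr (Sum.inr (Sum.inr j))) =
      Fin.cons (if i = a j.succ ∧ j ≠ P.j1 then e_ 0 else 0)
      (Function.update (fun _ => e_ 0) j (e_ P.q.succ)) from rfl, prodU]
    rfl

/-! ## Directions in the factor `j.succ` -/

section dir

variable (X : Fin (k + 1) → I m → S) (hX : ∀ j, X j 0 = 1) (j : Fin k) (ξ : I m → S) (hξ : ξ 0 = 0)

theorem upd_zero (v : I m → S) : Function.update X j.succ v 0 = X 0 :=
  Function.update_of_ne (Fin.succ_ne_zero j).symm _ _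

theorem upd_succ (v : I m → S) (j' : Fin k) : Function.update X j.succ v j'.succ =
    Function.update (fun j => X j.succ) j v j' := by
  by_cases h : j' = j
  · subst h
    rw [Function.update_self, Function.update_self]
  · rw [Function.update_of_ne h, Function.update_of_ne (fun h' => h (Fin.succ_injective _ h'))]

include hξ in
theorem pu0 : ∏ j' : Fin k, li (e_ 0) (Function.update X j.succ ξ j'.succ) = 0 := by
  simp only [upd_succ]
  exact prod_z _ _ j rfl (by rw [Function.update_self, hξ])

include hX hξ in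
theorem pu1 (j1 : Fin k) (g : I m → S) :
    ∏ j' : Fin k, li (Function.update (fun _ => e_ 0) j1 g j') (Function.update X j.succ ξ j'.succ) =
      if j = j1 then li g ξ else 0 := by
  simp only [upd_succ]
  split_ifs with h
  · subst h
    rw [prod1 _ j (fun j' h' => by rw [Function.update_of_ne h', hX]), Function.update_self]
  · exact prod_z _ _ j (by rw [Function.update_of_ne h]) (by rw [Function.update_self, hξ])

include hX hξ in
theorem pu2 (j1 j2 : Fin k) (h12 : j1 ≠ j2) (g g' : I m → S) :
    ∏ j' : Fin k, li (Function.update (Function.update (fun _ => e_ 0) j1 g) j2 g' j')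
      (Function.update X j.succ ξ j'.succ) =
      if j = j1 then li g ξ * li g' (X j2.succ) else if j = j2 then li g (X j1.succ) * li g' ξ
        else 0 := by
  simp only [upd_succ]
  split_ifs with h h'
  · subst h
    rw [prod2 _ j j2 h12 (fun j' h' _ => by rw [Function.update_of_ne h', hX]), Function.update_self,
      Function.update_of_ne h12.symm]
  · subst h'
    rw [prod2 _ j1 j h12 (fun j' _ h' => by rw [Function.update_of_ne h', hX]), Function.update_self,
      Function.update_of_ne h12]
  · exact prod_z _ _ j (by rw [Function.update_of_ne h', Function.update_of_ne h])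
      (by rw [Function.update_self, hξ])

include hX in
theorem pv0 (i : Fin (m + 1)) :
    (∏ j : Fin k, if a j.succ = i then li (e_ 0) (X j.succ) else 1) = 1 :=
  prodi i (fun _ => e_ 0) (fun j => X j.succ) fun j _ => by rw [li_e, hX]

include hX in
theorem pv1 (i : Fin (m + 1)) (j1 : Fin k) (g : I m → S) :
    (∏ j : Fin k, if a j.succ = i then li (Function.update (fun _ => e_ 0) j1 g j) (X j.succ)
      else 1) = if a j1.succ = i then li g (X j1.succ) else 1 :=
  prodi1 i (fun j => X j.succ) j1 (fun j _ => hX _) g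

include hX hξ in
theorem Mf_dir (hh : X P.j1.succ P.h.succ = 0) (i : Fin (m + 1))
    (hg : i ≠ a 0 → ∀ l, gg a P N i j 2 l = 0) :
    Mf (c0 a P N) i (Function.update X j.succ ξ) X =
      ∑ d : Fin 3, X 0 1 ^ (d : ℕ) * ∑ l, gg a P N i j d l * ξ l.succ +
      (if i = a P.j1.succ ∧ j = P.j1 then
        N.θ * (X 0 1 - 1) * (ξ P.h.succ * X P.j2.succ P.q.succ) else 0) +
      if i = a j.succ ∧ j ≠ P.j1 then ξ P.q.succ * X j.succ P.q.succ else 0 := by
  rw [Mf_c0]
  simp only [pu0 X j ξ hξ, pu1 X hX j ξ hξ, pu2 X hX j ξ hξ _ _ P.h12, pv0 X hX, pv1 X hX, upd_zero]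
  simp only [mul_zero, zero_mul, zero_add, mul_one]
  have e1 : ∑ j' : Fin k, ∑ d : Fin 3, li (if d = 0 then e_ 0 else e_ 1) (X 0) *
      (if j = j' then li (Fin.cons 0 (gg a P N i j' d) : I m → S) ξ else 0) *
      (if a 0 = i then li (if d = 2 then e_ 1 else e_ 0) (X 0) else 1) =
      ∑ d : Fin 3, X 0 1 ^ (d : ℕ) * ∑ l, gg a P N i j d l * ξ l.succ := by
    rw [Finset.sum_eq_single j]
    · rw [Fin.sum_univ_three, Fin.sum_univ_three]
      simp only [if_true, li_cons, li_e, hX, Fin.isValue, Fin.reduceEq, if_false, ite_self]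
      by_cases h0 : a 0 = i
      · rw [if_pos h0]
        simp only [Fin.coe_ofNat_eq_mod, Nat.zero_mod, pow_zero, Nat.one_mod]
        norm_num
        ring
      · rw [if_neg h0]
        have h2 : ∑ l, gg a P N i j 2 l * ξ l.succ = 0 :=
          Finset.sum_eq_zero fun l _ => by rw [hg (Ne.symm h0), zero_mul]
        rw [h2]
        norm_num
    · intro j' _ h'
      refine Finset.sum_eq_zero fun d _ => ?_
      rw [if_neg (Ne.symm h')]
      ring
    · intro h'
      exact absurd (Finset.mem_univ _) h'
  rw [e1, ← add_assoc]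
  congr 1
  congr 1
  · simp only [li_e, hh, hX, ite_self, mul_one]
    by_cases h1 : i = a P.j1.succ
    · simp only [h1, if_true, true_and, mul_zero, zero_add]
      by_cases hj : j = P.j1
      · simp only [hj, if_true, li_smul, li_sub, li_e, hX]
      · simp only [hj, if_false, zero_mul, mul_zero, ite_self]
    · simp only [h1, if_false, false_and, li_zero, zero_mul, zero_add]
  · rw [Finset.sum_eq_single j]
    · simp only [if_true, li_e, hX, ite_self, one_mul]
      by_cases h1 : i = a j.succ ∧ j ≠ P.j1
      · rw [if_pos h1, if_pos h1, li_e, hX, if_pos h1.1.symm]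
        ring
      · rw [if_neg h1, if_neg h1, li_zero]
        ring
    · intro j' _ h'
      rw [if_neg (Ne.symm h')]
      ring
    · intro h'
      exact absurd (Finset.mem_univ _) h'


include hξ in
theorem pw0 (i : Fin (m + 1)) (hi : a j.succ = i) : (∏ j' : Fin k, if a j'.succ = i then
    li (e_ 0) (Function.update X j.succ ξ j'.succ) else 1) = 0 :=
  prodi_z i (fun _ => e_ 0) (fun j' => Function.update X j.succ ξ j'.succ) j hi rfl
    (by rw [Function.update_self, hξ])

include hX hξ in
theorem pw1 (i : Fin (m + 1)) (hi : a j.succ = i) (j1 : Fin k) (g : I m → S) :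
    (∏ j' : Fin k, if a j'.succ = i then
      li (Function.update (fun _ => e_ 0) j1 g j') (Function.update X j.succ ξ j'.succ) else 1) =
      if j = j1 then li g ξ else 0 := by
  split_ifs with h
  · subst h
    rw [prodi1 i (fun j' => Function.update X j.succ ξ j'.succ) j
      (fun j' h' => by rw [upd_succ, Function.update_of_ne h', hX]) g, if_pos hi,
      Function.update_self]
  · exact prodi_z i _ (fun j' => Function.update X j.succ ξ j'.succ) j hi
      (by rw [Function.update_of_ne h]) (by rw [Function.update_self, hξ])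

include hX hξ in
theorem Mf_dir2 (hh : X P.j1.succ P.h.succ = 0) (i : Fin (m + 1))
    (hi : a j.succ = i) : Mf (c0 a P N) i X (Function.update X j.succ ξ) =
      if j ≠ P.j1 then X j.succ P.q.succ * ξ P.q.succ else 0 := by
  rw [Mf_c0]
  simp only [pw0 X j ξ hξ i hi, pw1 X hX j ξ hξ i hi, upd_zero,
    prod1 (fun j => X j.succ) _ (fun j _ => hX _),
    prod2 (fun j => X j.succ) _ _ P.h12 (fun j _ _ => hX _)]
  simp only [mul_zero, zero_mul, zero_add, Finset.sum_const_zero, add_zero, li_e, hh]
  rw [Finset.sum_eq_single j]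
  · by_cases h1 : j = P.j1
    · subst h1
      simp [li_zero]
    · simp only [hi.symm, h1, ne_eq, not_false_eq_true, and_self, if_true, li_e, hX, ite_self]
      ring
  · intro j' _ h'
    rw [if_neg (Ne.symm h')]
    ring
  · intro h'
    exact absurd (Finset.mem_univ _) h'

include hX hξ in
theorem Mf_dir3 (hh : X P.j1.succ P.h.succ = 0) (i : Fin (m + 1))
    (hi : a j.succ = i) :
    Mf (c0 a P N) i (Function.update X j.succ ξ) (Function.update X j.succ ξ) =
      if j = P.j1 then ξ P.h.succ ^ 2 * (X 0 1 - N.zy + X P.j2.succ P.p.succ)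
      else ξ P.q.succ ^ 2 := by
  rw [Mf_c0]
  simp only [pw0 X j ξ hξ i hi, pw1 X hX j ξ hξ i hi, upd_zero, pu0 X j ξ hξ, pu1 X hX j ξ hξ,
    pu2 X hX j ξ hξ _ _ P.h12]
  simp only [mul_zero, zero_mul, zero_add, Finset.sum_const_zero, add_zero, li_e, hh]
  rw [Finset.sum_eq_single j]
  · by_cases h1 : j = P.j1
    · subst h1
      simp only [hi.symm, if_true, li_e, hX, ite_self, ne_eq, not_true_eq_false, and_false, if_false,
        li_zero, li_sub, li_smul]
      ring
    · simp only [hi.symm, h1, ne_eq, not_false_eq_true, and_self, if_true, li_e, hX, ite_self,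
        if_false]
      ring
  · intro j' _ h'
    rw [if_neg (Ne.symm h')]
    ring
  · intro h'
    exact absurd (Finset.mem_univ _) h'

end dir

/-! ## The factor `0` -/

theorem Mf_zero (X : Fin (k + 1) → I m → S) (hX : ∀ j : Fin k, X j.succ 0 = 1)
    (hh : X P.j1.succ P.h.succ = 0)
    (hq : ∀ j, j ≠ P.j1 → X j.succ P.q.succ * X j.succ P.q.succ = 0) (i : Fin (m + 1))
    (v w : I m → S) : Mf (c0 a P N) i (Function.update X 0 v) (Function.update X 0 w) =
      li (bs a i) v * (if a 0 = i then w 0 else 1) +
      ∑ j : Fin k, ∑ d : Fin 3, li (if d = 0 then e_ 0 else e_ 1) v *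
        (if a 0 = i then li (if d = 2 then e_ 1 else e_ 0) w else 1) *
        ∑ l, gg a P N i j d l * X j.succ l.succ := by
  have hu : ∀ (v : I m → S) (j : Fin k), Function.update X 0 v j.succ = X j.succ := fun v j =>
    Function.update_of_ne (Fin.succ_ne_zero j) _ _
  rw [Mf_c0]
  simp only [hu, Function.update_self]
  simp only [prod0 (fun j => X j.succ) hX, prod1 (fun j => X j.succ) _ (fun j _ => hX j),
    prod2 (fun j => X j.succ) _ _ P.h12 (fun j _ _ => hX j),
    prodi _ (fun _ => e_ 0) (fun j => X j.succ) (fun j _ => by rw [li_e, hX]),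
    prodi1 _ (fun j => X j.succ) _ (fun j _ => hX j)]
  simp only [li_e, hh, mul_zero, zero_mul, add_zero, zero_add, mul_one, li_cons]
  have h3 : ∑ j : Fin k, li (if i = a j.succ ∧ j ≠ P.j1 then e_ 0 else 0) v * X j.succ P.q.succ *
      ((if a 0 = i then w 0 else 1) * if a j.succ = i then X j.succ P.q.succ else 1) = 0 := by
    refine Finset.sum_eq_zero fun j _ => ?_
    by_cases h1 : i = a j.succ ∧ j ≠ P.j1
    · rw [if_pos h1, if_pos h1.1.symm, li_e]
      linear_combination (v 0 * if a 0 = i then w 0 else 1) * hq j h1.2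
    · rw [if_neg h1, li_zero]
      ring
  rw [h3, add_zero]
  congr 1
  refine Finset.sum_congr rfl fun j _ => Finset.sum_congr rfl fun d _ => ?_
  ring

end

end Pool.Agent.Helper76.HK
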