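import Mathlib
import Pool.Agent.Helper76.HK.Ev

/-!
# The example: the values of the functions of the system
-/

set_option linter.unusedSectionVars false
set_option linter.unusedVariables false

namespace Pool.Agent.Helper76.HK

open Pool.Agent.Helper64.HK
open Pool.Agent.Helper28.HN (I aff)

section

variable {k m : ℕ} (a : Fin (k + 1) → Fin (m + 1)) {S : Type*} [CommRing S] (P : Par k m)
  (N : Num k m S)

/-- The forms different from `a 0` have degree 1 in `y`. -/
def Hg : Prop := ∀ i, i ≠ a 0 → ∀ j l, gg a P N i j 2 l = 0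

/-- Conditions on the point. -/
structure Hu (u : Fin k × Fin (m + 1) → S) : Prop where
  hh : u (P.j1, P.h) = 0
  hq : ∀ j, j ≠ P.j1 → u (j, P.q) * u (j, P.q) = 0

end

section

variable {k m : ℕ} {a : Fin (k + 1) → Fin (m + 1)} {S : Type*} [CommRing S] {P : Par k m}
  {N : Num k m S}

theorem sn_mul (i : Fin (m + 1)) : (sn a i : S) * sn a i = 1 := by
  unfold sn
  split_ifs <;> ring

theorem gg_above (j : Fin k) (s : Fin m) (d : Fin 3) (l : Fin (m + 1)) :
    gg a P N ((a j.succ).succAbove s) j d l = rl P j s d l := by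
  unfold gg
  rw [if_neg (Fin.succAbove_ne _ _), add_zero, Finset.sum_eq_single s]
  · rw [if_pos rfl]
  · intro b _ hb
    rw [if_neg fun h => hb (Fin.succAbove_right_injective h).symm]
  · intro h
    exact absurd (Finset.mem_univ _) h

theorem gg_self (j : Fin k) (d : Fin 3) (l : Fin (m + 1)) :
    gg a P N (a j.succ) j d l = sn a (a j.succ) *
      (N.f j d l - ∑ s : Fin m, sn a ((a j.succ).succAbove s) * rl P j s d l) := by
  unfold gg
  rw [if_pos rfl, Finset.sum_eq_zero, zero_add]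
  intro s _
  rw [if_neg (Fin.succAbove_ne _ _).symm]

theorem sum_gg (j : Fin k) (d : Fin 3) (l : Fin (m + 1)) :
    ∑ i, sn a i * gg a P N i j d l = N.f j d l := by
  rw [Fin.sum_univ_succAbove _ (a j.succ), gg_self]
  simp only [gg_above]
  linear_combination (N.f j d l - ∑ s : Fin m, sn a ((a j.succ).succAbove s) * rl P j s d l) *
    sn_mul (a := a) (S := S) (a j.succ)

theorem bs_above (r : Fin m) (v : I m → S) : li (bs a ((a 0).succAbove r)) v = v r.succ.succ := by
  have h : bs (S := S) a ((a 0).succAbove r) = e_ r.succ.succ := by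
    funext l
    unfold bs
    rw [Finset.sum_eq_single r]
    · rw [if_pos (Or.inr rfl)]
    · intro b _ hb
      rw [if_neg]
      rintro (h | h)
      · exact Fin.succAbove_ne _ _ h
      · exact hb (Fin.succAbove_right_injective h).symm
    · intro h
      exact absurd (Finset.mem_univ _) h
  rw [h, li_e]

theorem bs_self (v : I m → S) : li (bs a (a 0)) v = ∑ s : Fin m, v s.succ.succ := by
  unfold li bs
  simp only [true_or, if_true, Finset.sum_mul]
  rw [Finset.sum_comm]
  refine Finset.sum_congr rfl fun s _ => ?_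
  have h := li_e (S := S) s.succ.succ v
  unfold li at h
  exact h

/-! ## The line in the factor `0` -/

variable {u : Fin k × Fin (m + 1) → S}

theorem ct_zero' (j : Fin k) : ct u j.succ 0 = 1 := rfl

theorem ct_succ' (j : Fin k) (l : Fin (m + 1)) : ct u j.succ l.succ = u (j, l) := rfl

/-- The linear form `G` in the row `r`. -/
def Gr (a : Fin (k + 1) → Fin (m + 1)) (P : Par k m) (N : Num k m S)
    (u : Fin k × Fin (m + 1) → S) (i : Fin (m + 1)) (d : Fin 3) : S :=
  ∑ j, ∑ l, gg a P N i j d l * u (j, l)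

theorem Gr_two (hg : Hg a P N) (i : Fin (m + 1)) (hi : i ≠ a 0) : Gr a P N u i 2 = 0 := by
  unfold Gr
  exact Finset.sum_eq_zero fun j _ => Finset.sum_eq_zero fun l _ => by rw [hg i hi, zero_mul]

theorem sum_Gr (d : Fin 3) : Gr a P N u (a 0) d - ∑ s : Fin m, Gr a P N u ((a 0).succAbove s) d =
    ∑ j, ∑ l, N.f j d l * u (j, l) := by
  have h1 : ∑ i, sn a i * Gr a P N u i d = ∑ j, ∑ l, N.f j d l * u (j, l) := by
    unfold Gr
    simp only [Finset.mul_sum]
    rw [Finset.sum_comm]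
    refine Finset.sum_congr rfl fun j _ => ?_
    rw [Finset.sum_comm]
    refine Finset.sum_congr rfl fun l _ => ?_
    rw [← sum_gg (a := a) (P := P) (N := N) j d l, Finset.sum_mul]
    exact Finset.sum_congr rfl fun i _ => by ring
  rw [← h1, Fin.sum_univ_succAbove _ (a 0)]
  have h2 : ∀ s : Fin m, sn a ((a 0).succAbove s) * Gr a P N u ((a 0).succAbove s) d =
      - Gr a P N u ((a 0).succAbove s) d := fun s => by
    rw [sn, if_neg (Fin.succAbove_ne _ _)]
    ring
  simp only [h2, Finset.sum_neg_distrib]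
  rw [sn, if_pos rfl]
  ring

theorem Mf_zero' (hu : Hu P u) (i : Fin (m + 1)) (v w : I m → S) :
    Mf (c0 a P N) i (Function.update (ct u) 0 v) (Function.update (ct u) 0 w) =
      li (bs a i) v * (if a 0 = i then w 0 else 1) +
      v 0 * (if a 0 = i then w 0 else 1) * Gr a P N u i 0 +
      v 1 * (if a 0 = i then w 0 else 1) * Gr a P N u i 1 +
      v 1 * (if a 0 = i then w 1 else 1) * Gr a P N u i 2 := by
  rw [Mf_zero (ct u) (fun j => rfl) hu.hh hu.hq]
  simp only [Fin.sum_univ_three, Finset.sum_add_distrib, ct_succ']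
  simp only [Fin.isValue, Fin.reduceEq, if_true, if_false, li_e, ← Finset.mul_sum]
  unfold Gr
  ring

theorem rf_zero (hg : Hg a P N) (hu : Hu P u) (r : Fin m) (v : I m → S) :
    rf (c0 a P N) 0 (ct u) r v = v r.succ.succ + v 0 * Gr a P N u ((a 0).succAbove r) 0 +
      v 1 * Gr a P N u ((a 0).succAbove r) 1 := by
  unfold rf Ef
  rw [Mf_zero' hu, if_neg (Fin.succAbove_ne _ _).symm, if_neg (Fin.succAbove_ne _ _).symm, bs_above,
    Gr_two hg _ (Fin.succAbove_ne _ _)]
  ring

theorem Mx_one (hg : Hg a P N) (hu : Hu P u) : Mx (c0 a P N) (ct u) = 1 := by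
  ext r b
  rw [Mx, rf_zero hg hu, Matrix.one_apply]
  have h0 : (Pi.single b.succ.succ 1 : I m → S) 0 = 0 :=
    Pi.single_eq_of_ne (Fin.succ_ne_zero _).symm 1
  have h1 : (Pi.single b.succ.succ 1 : I m → S) 1 = 0 := Pi.single_eq_of_ne (by
    intro h
    exact (Fin.succ_ne_zero b) (Fin.succ_injective _ h.symm)) 1
  rw [h0, h1, zero_mul, zero_mul, add_zero, add_zero]
  by_cases h : r = b
  · rw [if_pos h, h, Pi.single_eq_same]
  · rw [if_neg h, Pi.single_eq_of_ne]
    intro h'
    exact h (Fin.succ_injective _ (Fin.succ_injective _ h'))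

theorem Y0_eq (hg : Hg a P N) (hu : Hu P u) : Y0 (c0 a P N) (ct u) =
    Fin.cons 1 (Fin.cons 0 fun r => - Gr a P N u ((a 0).succAbove r) 0) := by
  unfold Y0
  rw [Mx_one hg hu, Matrix.det_one, Matrix.adjugate_one, Matrix.one_mulVec]
  congr 2
  funext r
  rw [Pi.neg_apply, rf_zero hg hu]
  have h0 : (Pi.single 0 1 : I m → S) r.succ.succ = 0 :=
    Pi.single_eq_of_ne (Fin.succ_ne_zero _) 1
  have h1 : (Pi.single 0 1 : I m → S) 1 = 0 := Pi.single_eq_of_ne (by simp) 1
  rw [h0, h1, Pi.single_eq_same]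
  ring

theorem Y1_eq (hg : Hg a P N) (hu : Hu P u) : Y1 (c0 a P N) (ct u) =
    Fin.cons 0 (Fin.cons 1 fun r => - Gr a P N u ((a 0).succAbove r) 1) := by
  unfold Y1
  rw [Mx_one hg hu, Matrix.det_one, Matrix.adjugate_one, Matrix.one_mulVec]
  congr 2
  funext r
  rw [Pi.neg_apply, rf_zero hg hu]
  have h0 : (Pi.single 1 1 : I m → S) r.succ.succ = 0 := Pi.single_eq_of_ne (by
    intro h
    exact (Fin.succ_ne_zero r) (Fin.succ_injective _ h)) 1
  have h1 : (Pi.single 1 1 : I m → S) 0 = 0 := Pi.single_eq_of_ne (by simp) 1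
  rw [h0, h1, Pi.single_eq_same]
  ring

theorem yh_eq (hg : Hg a P N) (hu : Hu P u) (z : S) : yh (c0 a P N) (ct u) z =
    Fin.cons 1 (Fin.cons z fun r => - Gr a P N u ((a 0).succAbove r) 0 -
      z * Gr a P N u ((a 0).succAbove r) 1) := by
  unfold yh
  rw [Y0_eq hg hu, Y1_eq hg hu]
  funext i
  refine Fin.cases ?_ (fun i => ?_) i
  · simp
  · refine Fin.cases ?_ (fun i => ?_) i
    · simp
    · simp only [Fin.cons_succ]
      ring

theorem Pf_zero (hu : Hu P u) (v w : I m → S) : Pf (c0 a P N) 0 (ct u) v w =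
    (∑ s : Fin m, v s.succ.succ) * w 0 + (∑ s : Fin m, w s.succ.succ) * v 0 +
      2 * (v 0 * w 0 * Gr a P N u (a 0) 0) + (v 0 * w 1 + v 1 * w 0) * Gr a P N u (a 0) 1 +
      2 * (v 1 * w 1 * Gr a P N u (a 0) 2) := by
  unfold Pf
  rw [Mf_zero' hu, Mf_zero' hu, bs_self, bs_self]
  simp only [if_true]
  ring

theorem sum_y (d : Fin 3) : Gr a P N u (a 0) d = ∑ j, ∑ l, N.f j d l * u (j, l) +
    ∑ s : Fin m, Gr a P N u ((a 0).succAbove s) d := by
  rw [← sum_Gr (a := a) (P := P)]
  ring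

theorem Ah_eq (hg : Hg a P N) (hu : Hu P u) : Ah (c0 a P N) (ct u) =
    2 * ∑ j, ∑ l, N.f j 2 l * u (j, l) := by
  unfold Ah
  rw [Pf_zero hu, Y1_eq hg hu, sum_y (a := a) (P := P) (N := N) (u := u) 2, Finset.sum_eq_zero
    (fun s _ => Gr_two hg _ (Fin.succAbove_ne _ _))]
  simp only [Fin.cons_zero, Fin.cons_one, Fin.cons_succ]
  ring

theorem Bh_eq (hg : Hg a P N) (hu : Hu P u) : Bh (c0 a P N) (ct u) =
    ∑ j, ∑ l, N.f j 1 l * u (j, l) := by
  unfold Bh
  rw [Pf_zero hu, Y0_eq hg hu, Y1_eq hg hu, sum_y (a := a) (P := P) (N := N) (u := u) 1]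
  simp only [Fin.cons_zero, Fin.cons_one, Fin.cons_succ, Finset.sum_neg_distrib]
  ring

theorem Fh_eq (hg : Hg a P N) (hu : Hu P u) (z : S) : Fh (c0 a P N) (ct u) z =
    2 * (∑ j, ∑ l, N.f j 0 l * u (j, l) + z * ∑ j, ∑ l, N.f j 1 l * u (j, l) +
      z ^ 2 * ∑ j, ∑ l, N.f j 2 l * u (j, l)) := by
  unfold Fh
  rw [Pf_zero hu, yh_eq hg hu]
  have h2 : Gr a P N u (a 0) 2 = ∑ j, ∑ l, N.f j 2 l * u (j, l) := by
    rw [sum_y, Finset.sum_eq_zero (fun s _ => Gr_two hg _ (Fin.succAbove_ne _ _)), add_zero]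
  rw [h2, sum_y (a := a) (P := P) (N := N) (u := u) 1, sum_y (a := a) (P := P) (N := N) (u := u) 0]
  simp only [Fin.cons_zero, Fin.cons_one, Fin.cons_succ, Finset.sum_sub_distrib,
    Finset.sum_neg_distrib, ← Finset.mul_sum]
  ring

end

end Pool.Agent.Helper76.HK
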