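import Mathlib
import Pool.Agent.Helper76.HK.Val

/-!
# The example: the values in the factors `j.succ`
-/

set_option linter.unusedSectionVars false
set_option linter.unusedVariables false

namespace Pool.Agent.Helper76.HK

open Pool.Agent.Helper64.HK
open Pool.Agent.Helper28.HN (I aff)

section

variable {k m : ℕ} {a : Fin (k + 1) → Fin (m + 1)} {S : Type*} [CommRing S] {P : Par k m}
  {N : Num k m S} {u : Fin k × Fin (m + 1) → S}

theorem Mf_update_V (c : Ix a → S) (i : Fin (m + 1)) (j : Fin (k + 1)) (h : a j ≠ i)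
    (U V : Fin (k + 1) → I m → S) (w : I m → S) :
    Mf c i U (Function.update V j w) = Mf c i U V := by
  unfold Mf
  refine Finset.sum_congr rfl fun p _ => Finset.sum_congr rfl fun q _ => ?_
  congr 1
  refine Finset.prod_congr rfl fun j' _ => ?_
  rw [Function.update_of_ne]
  intro h'
  exact h (h' ▸ j'.2)

theorem Xz_one (hg : Hg a P N) (hu : Hu P u) (z : S) (j : Fin (k + 1)) :
    Xz (c0 a P N) (ct u) z j 0 = 1 := by
  unfold Xz
  refine Fin.cases ?_ (fun j => ?_) j
  · rw [Function.update_self, yh_eq hg hu]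
    rfl
  · rw [Function.update_of_ne (Fin.succ_ne_zero j)]
    rfl

theorem Xz_z (hg : Hg a P N) (hu : Hu P u) (z : S) : Xz (c0 a P N) (ct u) z 0 1 = z := by
  unfold Xz
  rw [Function.update_self, yh_eq hg hu]
  rfl

theorem Xz_u (z : S) (j : Fin k) (l : Fin (m + 1)) :
    Xz (c0 a P N) (ct u) z j.succ l.succ = u (j, l) := by
  unfold Xz
  rw [Function.update_of_ne (Fin.succ_ne_zero j)]
  rfl

/-- The value of the linear part of a form in the factor `j.succ`. -/
def Lv (a : Fin (k + 1) → Fin (m + 1)) (P : Par k m) (N : Num k m S) (i : Fin (m + 1)) (j : Fin k)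
    (z : S) (v : Fin (m + 1) → S) : S := ∑ d : Fin 3, z ^ (d : ℕ) * ∑ l, gg a P N i j d l * v l

theorem Mf_d1 (hg : Hg a P N) (hu : Hu P u) (z : S) (j : Fin k) (v : Fin (m + 1) → S)
    (i : Fin (m + 1)) :
    Mf (c0 a P N) i (Function.update (Xz (c0 a P N) (ct u) z) j.succ (Fin.cons 0 v))
      (Xz (c0 a P N) (ct u) z) = Lv a P N i j z v +
      (if i = a P.j1.succ ∧ j = P.j1 then N.θ * (z - 1) * (v P.h * u (P.j2, P.q)) else 0) +
      if i = a j.succ ∧ j ≠ P.j1 then v P.q * u (j, P.q) else 0 := by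
  rw [Mf_dir (Xz (c0 a P N) (ct u) z) (Xz_one hg hu z) j (Fin.cons 0 v) rfl
    (by rw [Xz_u]; exact hu.hh) i (fun hi => hg i hi j)]
  simp only [Xz_z hg hu, Xz_u, Fin.cons_succ]
  rfl

theorem Mf_d2 (hg : Hg a P N) (hu : Hu P u) (z : S) (j : Fin k) (v : Fin (m + 1) → S)
    (i : Fin (m + 1)) (hi : a j.succ = i) :
    Mf (c0 a P N) i (Xz (c0 a P N) (ct u) z)
      (Function.update (Xz (c0 a P N) (ct u) z) j.succ (Fin.cons 0 v)) =
      if j ≠ P.j1 then u (j, P.q) * v P.q else 0 := by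
  rw [Mf_dir2 (Xz (c0 a P N) (ct u) z) (Xz_one hg hu z) j (Fin.cons 0 v) rfl
    (by rw [Xz_u]; exact hu.hh) i hi]
  simp only [Xz_u, Fin.cons_succ]

theorem Mf_d3 (hg : Hg a P N) (hu : Hu P u) (z : S) (j : Fin k) (v : Fin (m + 1) → S)
    (i : Fin (m + 1)) (hi : a j.succ = i) :
    Mf (c0 a P N) i (Function.update (Xz (c0 a P N) (ct u) z) j.succ (Fin.cons 0 v))
      (Function.update (Xz (c0 a P N) (ct u) z) j.succ (Fin.cons 0 v)) =
      if j = P.j1 then v P.h ^ 2 * (z - N.zy + u (P.j2, P.p)) else v P.q ^ 2 := by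
  rw [Mf_dir3 (Xz (c0 a P N) (ct u) z) (Xz_one hg hu z) j (Fin.cons 0 v) rfl
    (by rw [Xz_u]; exact hu.hh) i hi]
  simp only [Xz_z hg hu, Xz_u, Fin.cons_succ]

theorem Lv_above (j : Fin k) (s : Fin m) (z : S) (v : Fin (m + 1) → S) :
    Lv a P N ((a j.succ).succAbove s) j z v = v s.castSucc - z ^ (P.dd j s : ℕ) * v s.succ := by
  unfold Lv
  simp only [gg_above]
  unfold rl
  have h1 : ∀ d : Fin 3, ∑ l, ((if d = 0 ∧ l = s.castSucc then (1 : S) else 0) -
      if d = P.dd j s ∧ l = s.succ then 1 else 0) * v l =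
      (if d = 0 then v s.castSucc else 0) - if d = P.dd j s then v s.succ else 0 := by
    intro d
    simp only [sub_mul, Finset.sum_sub_distrib, ite_mul, one_mul, zero_mul]
    congr 1
    · by_cases hd : d = 0
      · simp [hd]
      · simp [hd]
    · by_cases hd : d = P.dd j s
      · simp [hd]
      · simp [hd]
  simp only [h1, mul_sub, Finset.sum_sub_distrib, mul_ite, mul_zero]
  rw [Finset.sum_ite_eq' Finset.univ (0 : Fin 3), Finset.sum_ite_eq' Finset.univ (P.dd j s)]
  simp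

/-- The rows in the factor `j.succ`. -/
theorem rf_succ (hg : Hg a P N) (hu : Hu P u) (z : S) (j : Fin k) (r : Fin m) (v : Fin (m + 1) → S) :
    rf (c0 a P N) j.succ (Xz (c0 a P N) (ct u) z) r (Fin.cons 0 v) =
      v r.castSucc - z ^ (P.dd j r : ℕ) * v r.succ := by
  unfold rf Ef
  rw [Mf_update_V _ _ _ (Fin.succAbove_ne _ _).symm, Mf_d1 hg hu, Lv_above, if_neg, if_neg]
  · ring
  · rintro ⟨h, _⟩
    exact Fin.succAbove_ne _ _ h
  · rintro ⟨h, h'⟩
    exact Fin.succAbove_ne _ _ (h.trans (by rw [h']))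

theorem single_succ (l : Fin (m + 1)) : (Pi.single l.succ 1 : I m → S) =
    Fin.cons 0 (Pi.single l 1) := by
  funext i
  refine Fin.cases ?_ (fun i => ?_) i
  · rw [Pi.single_eq_of_ne (Fin.succ_ne_zero l).symm, Fin.cons_zero]
  · rw [Fin.cons_succ]
    by_cases h : i = l
    · rw [h, Pi.single_eq_same, Pi.single_eq_same]
    · rw [Pi.single_eq_of_ne h, Pi.single_eq_of_ne (fun h' => h (Fin.succ_injective _ h'))]

theorem Nx_eq (hg : Hg a P N) (hu : Hu P u) (z : S) (j : Fin k) (r i : Fin m) :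
    Nx (c0 a P N) j.succ (Xz (c0 a P N) (ct u) z) r i =
      (if r = i then 1 else 0) - z ^ (P.dd j r : ℕ) * if r.succ = i.castSucc then 1 else 0 := by
  unfold Nx
  rw [single_succ, rf_succ hg hu]
  congr 1
  · by_cases h : r = i
    · rw [h, Pi.single_eq_same, if_pos rfl]
    · rw [Pi.single_eq_of_ne (fun h' => h (Fin.castSucc_injective _ h')), if_neg h]
  · by_cases h : r.succ = i.castSucc
    · rw [h, Pi.single_eq_same, if_pos rfl]
    · rw [Pi.single_eq_of_ne h, if_neg h]

theorem Nx_det (hg : Hg a P N) (hu : Hu P u) (z : S) (j : Fin k) :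
    (Nx (c0 a P N) j.succ (Xz (c0 a P N) (ct u) z)).det = 1 := by
  rw [Matrix.det_of_isUpperTriangular]
  · refine Finset.prod_eq_one fun i _ => ?_
    rw [Nx_eq hg hu, if_pos rfl, if_neg]
    · ring
    · intro h
      have := congrArg Fin.val h
      simp at this
  · intro r i hri
    rw [Nx_eq hg hu, if_neg, if_neg]
    · ring
    · intro h
      have := congrArg Fin.val h
      have h2 : i.val < r.val := hri
      simp at this
      omega
    · rintro rfl
      exact lt_irrefl _ hri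

/-- The direction. -/
def xe (P : Par k m) (j : Fin k) (z : S) : Fin (m + 1) → S := fun l => z ^ P.ep j l

theorem vh_eq (hg : Hg a P N) (hu : Hu P u) (z : S) (j : Fin k) :
    vh (c0 a P N) j.succ (Xz (c0 a P N) (ct u) z) = xe P j z := by
  set M := Nx (c0 a P N) j.succ (Xz (c0 a P N) (ct u) z) with hM
  have h1 : M.mulVec (fun i => xe P j z i.castSucc) = - fun r => rf (c0 a P N) j.succ
      (Xz (c0 a P N) (ct u) z) r (Pi.single (Fin.last (m + 1)) 1) := by
    funext r
    rw [Pi.neg_apply, ← Fin.succ_last, single_succ, rf_succ hg hu, Matrix.mulVec, dotProduct]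
    simp only [hM, Nx_eq hg hu, sub_mul, ite_mul, one_mul, zero_mul, Finset.sum_sub_distrib]
    rw [Finset.sum_ite_eq Finset.univ r, if_pos (Finset.mem_univ _),
      Pi.single_eq_of_ne (Fin.castSucc_lt_last r).ne]
    have h3 : xe P j z r.castSucc = z ^ (P.dd j r : ℕ) * xe P j z r.succ := by
      unfold xe
      rw [P.hs, pow_add, mul_comm]
    rw [h3]
    have h4 : ∑ i : Fin m, z ^ (P.dd j r : ℕ) * (if r.succ = i.castSucc then (1 : S) else 0) *
        xe P j z i.castSucc + z ^ (P.dd j r : ℕ) * (Pi.single (Fin.last m) 1 : Fin (m + 1) → S)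
          r.succ = z ^ (P.dd j r : ℕ) * xe P j z r.succ := by
      refine Fin.lastCases ?_ (fun i => ?_) r.succ
      · rw [Finset.sum_eq_zero, Pi.single_eq_same, xe, P.hl]
        · ring
        · intro i _
          rw [if_neg (Fin.castSucc_lt_last i).ne']
          ring
      · rw [Finset.sum_eq_single i, if_pos rfl, Pi.single_eq_of_ne (Fin.castSucc_lt_last i).ne]
        · ring
        · intro b _ hb
          rw [if_neg fun h => hb (Fin.castSucc_injective _ h).symm]
          ring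
        · intro h
          exact absurd (Finset.mem_univ _) h
    linear_combination - h4
  have h2 : M.adjugate.mulVec (fun r => rf (c0 a P N) j.succ
      (Xz (c0 a P N) (ct u) z) r (Pi.single (Fin.last (m + 1)) 1)) =
      - fun i => xe P j z i.castSucc := by
    have h3 := congrArg M.adjugate.mulVec h1
    rw [Matrix.mulVec_mulVec, Matrix.adjugate_mul, hM, Nx_det hg hu, one_smul, Matrix.one_mulVec,
      Matrix.mulVec_neg] at h3
    rw [h3, neg_neg]
  unfold vh
  rw [← hM, h2, neg_neg, hM, Nx_det hg hu]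
  funext l
  refine Fin.lastCases ?_ (fun i => ?_) l
  · rw [Fin.snoc_last, xe, P.hl, pow_zero]
  · rw [Fin.snoc_castSucc]

theorem xh_eq (hg : Hg a P N) (hu : Hu P u) (z : S) (j : Fin k) :
    xh (c0 a P N) j.succ (Xz (c0 a P N) (ct u) z) = Fin.cons 0 (xe P j z) := by
  unfold xh
  rw [vh_eq hg hu]

theorem Lv_xe_above (j : Fin k) (s : Fin m) (z : S) :
    Lv a P N ((a j.succ).succAbove s) j z (xe P j z) = 0 := by
  rw [Lv_above, xe, xe, P.hs, pow_add]
  ring

/-- The derivative of the form on the line. -/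
def Ph (P : Par k m) (N : Num k m S) (j : Fin k) (w z : S) : S :=
  ∑ d : Fin 3, z ^ (d : ℕ) * ∑ l, N.f j d l * w ^ P.ep j l

theorem sum_Lv (j : Fin k) (z : S) (v : Fin (m + 1) → S) : ∑ i, sn a i * Lv a P N i j z v =
    ∑ d : Fin 3, z ^ (d : ℕ) * ∑ l, N.f j d l * v l := by
  unfold Lv
  simp only [Finset.mul_sum]
  rw [Finset.sum_comm]
  refine Finset.sum_congr rfl fun d _ => ?_
  rw [Finset.sum_comm]
  refine Finset.sum_congr rfl fun l _ => ?_
  rw [← sum_gg (a := a) (P := P) (N := N) j d l, Finset.sum_mul, Finset.mul_sum]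
  exact Finset.sum_congr rfl fun i _ => by ring

theorem Lv_xe_self (j : Fin k) (z : S) :
    Lv a P N (a j.succ) j z (xe P j z) = sn a (a j.succ) * Ph P N j z z := by
  have h := sum_Lv (a := a) (P := P) (N := N) j z (xe P j z)
  rw [Fin.sum_univ_succAbove _ (a j.succ), Finset.sum_eq_zero (fun s _ => by
    rw [Lv_xe_above, mul_zero]), add_zero] at h
  have h2 : Ph P N j z z = ∑ d : Fin 3, z ^ (d : ℕ) * ∑ l, N.f j d l * xe P j z l := rfl
  rw [h2, ← h, ← mul_assoc, sn_mul, one_mul]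

theorem psh_eq (hg : Hg a P N) (hu : Hu P u) (z : S) (j : Fin k) :
    psh (c0 a P N) j.succ (ct u) z = sn a (a j.succ) * Ph P N j z z +
      if j = P.j1 then N.θ * (z - 1) * (z ^ P.ep P.j1 P.h * u (P.j2, P.q))
      else 2 * (z ^ P.ep j P.q * u (j, P.q)) := by
  unfold psh Pf
  have h1 : Function.update (Xz (c0 a P N) (ct u) z) j.succ (ct u j.succ) =
      Xz (c0 a P N) (ct u) z := by
    rw [Function.update_eq_self_iff]
    unfold Xz
    rw [Function.update_of_ne (Fin.succ_ne_zero j)]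
  rw [h1, xh_eq hg hu, Mf_d1 hg hu, Mf_d2 hg hu z j _ _ rfl, Lv_xe_self]
  by_cases h : j = P.j1
  · subst h
    simp [xe]
  · simp only [h, ne_eq, not_false_eq_true, if_true, if_false, and_false, and_true, xe]
    ring

theorem kah_eq (hg : Hg a P N) (hu : Hu P u) (z : S) (j : Fin k) :
    kah (c0 a P N) j.succ (ct u) z = 2 * if j = P.j1 then
      (z ^ P.ep P.j1 P.h) ^ 2 * (z - N.zy + u (P.j2, P.p)) else (z ^ P.ep j P.q) ^ 2 := by
  unfold kah Pf
  rw [xh_eq hg hu, Mf_d3 hg hu z j _ _ rfl, xe, xe, ← two_mul]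
  by_cases h : j = P.j1
  · subst h
    rfl
  · rw [if_neg h, if_neg h]

theorem De_eq (hg : Hg a P N) (hu : Hu P u) (z : S) (j : Fin k) (v : Fin (m + 1) → S)
    (i : Fin (m + 1)) :
    De (c0 a P N) i j.succ (Xz (c0 a P N) (ct u) z) (Fin.cons 0 v) = Lv a P N i j z v +
      if i = a j.succ then (if j = P.j1 then N.θ * (z - 1) * (v P.h * u (P.j2, P.q)) else
        2 * (v P.q * u (j, P.q))) else 0 := by
  unfold De
  rw [Mf_d1 hg hu]
  by_cases hi : a j.succ = i
  · rw [if_pos hi, if_pos hi.symm, Mf_d2 hg hu z j v i hi]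
    by_cases h : j = P.j1
    · subst h
      simp [hi]
    · simp only [h, hi, ne_eq, not_false_eq_true, if_true, if_false, and_false, and_true]
      ring
  · rw [if_neg hi, if_neg (Ne.symm hi), if_neg, if_neg]
    · ring
    · rintro ⟨h, _⟩
      exact hi h.symm
    · rintro ⟨h, h'⟩
      exact hi (by rw [h, h'])

theorem vp_eq (hg : Hg a P N) (hu : Hu P u) (e : Fin m → S) :
    vp (c0 a P N) (ct u) e = Fin.cons 0 (Fin.cons 0 (-e)) := by
  unfold vp
  rw [Mx_one hg hu, Matrix.adjugate_one, Matrix.one_mulVec]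

theorem Pf_vp (hg : Hg a P N) (hu : Hu P u) (z : S) (e : Fin m → S) :
    Pf (c0 a P N) 0 (ct u) (yh (c0 a P N) (ct u) z) (vp (c0 a P N) (ct u) e) = - ∑ r, e r := by
  rw [Pf_zero hu, yh_eq hg hu, vp_eq hg hu]
  simp only [Fin.cons_zero, Fin.cons_one, Fin.cons_succ, Pi.neg_apply, Finset.sum_neg_distrib]
  ring

theorem qh_eq (hg : Hg a P N) (hu : Hu P u) (z : S) (j : Fin k) (v : Fin (m + 1) → S) :
    qh (c0 a P N) j.succ (ct u) (Fin.cons 0 v) z =
      2 * (∑ d : Fin 3, z ^ (d : ℕ) * ∑ l, N.f j d l * v l + sn a (a j.succ) *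
        if j = P.j1 then N.θ * (z - 1) * (v P.h * u (P.j2, P.q)) else
          2 * (v P.q * u (j, P.q))) := by
  unfold qh
  rw [Mx_one hg hu, Matrix.det_one, one_mul, Pf_vp hg hu, ← sum_Lv (a := a) (P := P) (N := N) j z v]
  have h1 : ∑ i, sn a i * De (c0 a P N) i j.succ (Xz (c0 a P N) (ct u) z) (Fin.cons 0 v) =
      De (c0 a P N) (a 0) j.succ (Xz (c0 a P N) (ct u) z) (Fin.cons 0 v) -
      ∑ r, De (c0 a P N) ((a 0).succAbove r) j.succ (Xz (c0 a P N) (ct u) z) (Fin.cons 0 v) := by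
    rw [Fin.sum_univ_succAbove _ (a 0)]
    have h2 : ∀ s : Fin m, sn a ((a 0).succAbove s) * De (c0 a P N) ((a 0).succAbove s) j.succ
        (Xz (c0 a P N) (ct u) z) (Fin.cons 0 v) = - De (c0 a P N) ((a 0).succAbove s) j.succ
        (Xz (c0 a P N) (ct u) z) (Fin.cons 0 v) := fun s => by
      rw [sn, if_neg (Fin.succAbove_ne _ _)]
      ring
    simp only [h2, Finset.sum_neg_distrib]
    rw [sn, if_pos rfl]
    ring
  rw [← sub_eq_add_neg, ← h1]
  simp only [De_eq hg hu, mul_add, Finset.sum_add_distrib, mul_ite, mul_zero]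
  rw [Finset.sum_ite_eq' Finset.univ (a j.succ)]
  simp

theorem th_eq (hg : Hg a P N) (hu : Hu P u) (z : S) (j : Fin k) :
    th (c0 a P N) j.succ (ct u) z = sn a (a j.succ) := by
  unfold th
  rw [Mx_one hg hu, Matrix.det_one, Pf_vp hg hu, sn]
  by_cases h : a j.succ = a 0
  · rw [if_pos h, if_pos h, Finset.sum_eq_zero]
    · ring
    · intro r _
      rw [if_neg]
      intro h'
      exact Fin.succAbove_ne _ _ (h'.trans h)
  · obtain ⟨s, hs⟩ := Fin.exists_succAbove_eq h
    rw [if_neg h, if_neg h, Finset.sum_eq_single s]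
    · rw [if_pos hs]
      ring
    · intro b _ hb
      rw [if_neg]
      intro h'
      exact hb (Fin.succAbove_right_injective (h'.trans hs.symm))
    · intro h'
      exact absurd (Finset.mem_univ _) h'

end

end Pool.Agent.Helper76.HK
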