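import Mathlib
import Pool.Agent.Helper76.HK.Val2
import Pool.Agent.Helper24.HK.Cfg

/-!
# The example: the conditions on the numbers
-/

namespace Pool.Agent.Helper76.HK

open Pool.Agent.Helper64.HK Pool.Agent.Helper24.HK
open Pool.Agent.Helper28.HN (I aff)

/-- The numbers for the first factor. `typ = none`: type 1; `typ = some i`: type 2, the form `a 0` is
the row `i`. -/
structure Head (m : ℕ) where
  typ : Option (Fin m)
  /-- exponents of the direction -/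
  ep : Fin (m + 1) → ℕ
  dd : Fin m → Fin 3
  /-- `f d l`: coefficient of `z ^ d * u l` in the derivative of the form on the line -/
  f : Fin 3 → Fin (m + 1) → ℚ
  /-- coordinates: `h` is not free, `iA`, `iC` are free -/
  h : Fin (m + 1)
  iA : Fin (m + 1)
  iC : Fin (m + 1)
  /-- the letters; `none` is the starting letter -/
  z : Option (Fin (m + 1)) → ℚ
  /-- the second roots, and factors -/
  ρ : Option (Fin (m + 1)) → ℚ
  κ : Option (Fin (m + 1)) → ℚ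
  μ : ℚ
  hl : ep (Fin.last m) = 0
  hs : ∀ s, ep s.castSucc = ep s.succ + dd s
  hdd : ∀ s, dd s = if typ = some s then 2 else 1
  hf2 : ∀ i, typ = some i → ∀ l, f 2 l = if l = i.succ then -1 else 0
  inj : Function.Injective z
  ne0 : ∀ b, z b ≠ 0
  z1 : z (some 0) = 1
  κ0 : ∀ b, κ b ≠ 0
  μ0 : μ ≠ 0
  phi : ∀ b x, ∑ d : Fin 3, x ^ (d : ℕ) * ∑ l, f d l * z b ^ ep l = κ b * (x - z b) * (x - ρ b)
  psi : (∑ d : Fin 3, Polynomial.X ^ (d : ℕ) * ∑ l, Polynomial.C (f d l) * Polynomial.X ^ ep l :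
    Polynomial ℚ) = Polynomial.C μ * ∏ b, (Polynomial.X - Polynomial.C (z b))
  hρ0 : ρ (some 0) ≠ 0
  hρ1 : ∀ b, ρ (some 0) ≠ z b
  hρ : ∀ b b', b ≠ b' → z b' ≠ ρ b
  hρρ : ∀ b, b ≠ some 0 → ρ b ≠ ρ (some 0)
  bas : (Matrix.of fun b i : Fin (m + 1) => z (some b) ^ ep i).det ≠ 0
  hAC : iA ≠ iC
  hhA : h ≠ iA
  hhC : h ≠ iC
  A2 : f 2 iA ≠ 0
  C2 : f 2 iC = 0
  C1 : f 1 iC = 0
  C0 : f 0 iC ≠ 0

section

variable {k m : ℕ}

/-- The polynomial `z ↦ Ph j z z`. -/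
noncomputable def pP (P : Par k m) (N : Num k m ℚ) (j : Fin k) : Polynomial ℚ :=
  ∑ d : Fin 3, Polynomial.X ^ (d : ℕ) * ∑ l, Polynomial.C (N.f j d l) * Polynomial.X ^ P.ep j l

/-- The conditions. -/
structure Good (a : Fin (k + 1) → Fin (m + 1)) (P : Par k m) (N : Num k m ℚ) (s : Sel k m)
    (zz : Lt k m → ℚ) : Prop where
  g2 : Hg a P N
  f : s.f = P.j1
  j : s.j.1 = P.j2
  m' : s.m'.1 = P.j1
  zm : zz (some s.m') = 1
  zy : N.zy = zz none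
  S0 : s.S 0 = (P.j2, P.p)
  S4 : s.S 4 = (P.j2, P.q)
  hfree : ∀ e, s.S e ≠ (P.j1, P.h)
  inj : Function.Injective zz
  ne0 : ∀ b, zz b ≠ 0
  psi : ∀ b, (pP P N (s.ty b)).eval (zz b) = 0
  psd : ∀ b, (pP P N (s.ty b)).derivative.eval (zz b) ≠ 0
  q0 : Ph P N P.j1 1 (zz (some s.j)) = 0
  q1 : ∀ b b', b ≠ b' → ¬ (b = some s.m' ∧ b' = some s.j) → Ph P N (s.ty b) (zz b) (zz b') ≠ 0
  bas : ∀ l, (Matrix.of fun b i : Fin (m + 1) => zz (some (l, b)) ^ P.ep l i).det ≠ 0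
  A : ∀ e, e ≠ 2 → N.f (s.S e).1 2 (s.S e).2 = 0
  A2 : N.f (s.S 2).1 2 (s.S 2).2 ≠ 0
  B : ∀ e, e ≠ 2 → e ≠ 3 → N.f (s.S e).1 1 (s.S e).2 = 0
  B3 : N.f (s.S 3).1 1 (s.S 3).2 ≠ 0
  C1 : N.f (s.S 1).1 0 (s.S 1).2 ≠ 0
  thc : sn a (a P.j1.succ) * N.θ * (zz (some s.j) - 1) *
      (pP P N P.j2).derivative.eval (zz (some s.j)) ≠
    2 * sn a (a P.j2.succ) * zz (some s.j) ^ P.ep P.j2 P.q *
      (∑ l, N.f P.j1 1 l + 2 * zz (some s.j) * ∑ l, N.f P.j1 2 l)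

end

end Pool.Agent.Helper76.HK
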