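import Mathlib
import Pool.Agent.Helper76.XN.ET
import Pool.Agent.Helper24.HK.Cfg
import Pool.Agent.Helper45.HK.NatP

/-!
# Existence of configurations for general coefficients
-/

namespace Pool.Agent.Helper76.HK

open MvPolynomial Pool.Agent.Helper64.HK Pool.Agent.Helper24.HK
open Pool.Agent.Helper28.HN (I aff)
open Pool.Agent.Helper45.HK (map_Eqn map_Pp)

section

variable {k m : ℕ} {a : Fin (k + 1) → Fin (m + 1)} (s : Sel k m)

/-- The equations as polynomials in the coefficients and the unknowns. -/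
noncomputable def FF (a : Fin (k + 1) → Fin (m + 1)) (s : Sel k m) (i : Un k m) :
    MvPolynomial (Ix a ⊕ Un k m) ℚ :=
  Eqn (fun e => X (Sum.inl e)) s (fun j => X (Sum.inr j)) i

/-- The product as a polynomial in the coefficients and the unknowns. -/
noncomputable def GG (a : Fin (k + 1) → Fin (m + 1)) (s : Sel k m) :
    MvPolynomial (Ix a ⊕ Un k m) ℚ :=
  Pp (fun e => X (Sum.inl e)) s (fun j => X (Sum.inr j))

theorem eval_FF (c : Ix a → ℚ) (x : Un k m → ℚ) (i : Un k m) :
    eval (Sum.elim c x) (FF a s i) = Eqn c s x i := by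
  have h := map_Eqn (eval (Sum.elim c x) : MvPolynomial (Ix a ⊕ Un k m) ℚ →+* ℚ)
    (fun e => X (Sum.inl e)) s (fun j => X (Sum.inr j)) i
  change eval (Sum.elim c x) (FF a s i) = _ at h
  rw [h]
  congr 1
  · funext e
    simp
  · funext j
    simp

theorem eval_GG (c : Ix a → ℚ) (x : Un k m → ℚ) :
    eval (Sum.elim c x) (GG a s) = Pp c s x := by
  have h := map_Pp (eval (Sum.elim c x) : MvPolynomial (Ix a ⊕ Un k m) ℚ →+* ℚ)
    (fun e => X (Sum.inl e)) s (fun j => X (Sum.inr j))
  change eval (Sum.elim c x) (GG a s) = _ at h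
  rw [h]
  congr 1
  · funext e
    simp
  · funext j
    simp

variable {L : Type*} [Field L] [CharZero L]

theorem aeval_FF (c : Ix a → L) (x : Un k m → L) (i : Un k m) :
    aeval (Sum.elim c x) (FF a s i) = Eqn c s x i := by
  have h := map_Eqn (aeval (Sum.elim c x) : MvPolynomial (Ix a ⊕ Un k m) ℚ →ₐ[ℚ] L).toRingHom
    (fun e => X (Sum.inl e)) s (fun j => X (Sum.inr j)) i
  change aeval (Sum.elim c x) (FF a s i) = _ at h
  rw [h]
  congr 1
  · funext e
    simp
  · funext j
    simp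

theorem aeval_GG (c : Ix a → L) (x : Un k m → L) :
    aeval (Sum.elim c x) (GG a s) = Pp c s x := by
  have h := map_Pp (aeval (Sum.elim c x) : MvPolynomial (Ix a ⊕ Un k m) ℚ →ₐ[ℚ] L).toRingHom
    (fun e => X (Sum.inl e)) s (fun j => X (Sum.inr j))
  change aeval (Sum.elim c x) (GG a s) = _ at h
  rw [h]
  congr 1
  · funext e
    simp
  · funext j
    simp

/-- Specialisation of the coefficients. -/
noncomputable def sp (c : Ix a → L) : MvPolynomial (Ix a ⊕ Un k m) ℚ →ₐ[ℚ] MvPolynomial (Un k m) L :=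
  aeval (Sum.elim (fun e => C (c e)) X)

theorem sp_pderiv (c : Ix a → L) (j : Un k m) (P : MvPolynomial (Ix a ⊕ Un k m) ℚ) :
    pderiv j (sp c P) = sp c (pderiv (Sum.inr j) P) := by
  classical
  induction P using MvPolynomial.induction_on with
  | C a =>
    rw [show sp c (C a : MvPolynomial (Ix _ ⊕ Un k m) ℚ) = C (algebraMap ℚ L a) by
      rw [sp, aeval_C]
      rfl]
    simp
  | add p q hp hq => simp [hp, hq]
  | mul_X p s hp =>
    rw [map_mul, Derivation.leibniz, Derivation.leibniz, map_add, hp]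
    simp only [smul_eq_mul, map_mul]
    congr 2
    rcases s with e | i
    · simp [sp, pderiv_X]
    · simp [sp, pderiv_X, Pi.single_apply]

theorem eval_sp (c : Ix a → L) (x : Un k m → L) (P : MvPolynomial (Ix a ⊕ Un k m) ℚ) :
    eval x (sp c P) = aeval (Sum.elim c x) P := by
  have : ((aeval x : MvPolynomial (Un k m) L →ₐ[L] L).restrictScalars ℚ).comp (sp c) =
      aeval (Sum.elim c x) := by
    ext s
    rcases s with e | i
    · simp [sp]
    · simp [sp]
  have h := DFunLike.congr_fun this P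
  rw [← h]
  simp [aeval_eq_eval]

theorem sp_FF (c : Ix a → L) (i : Un k m) : sp c (FF a s i) = Gs c s i := by
  have h := map_Eqn (sp c : MvPolynomial (Ix a ⊕ Un k m) ℚ →ₐ[ℚ] MvPolynomial (Un k m) L).toRingHom
    (fun e => X (Sum.inl e)) s (fun j => X (Sum.inr j)) i
  change sp c (FF a s i) = _ at h
  rw [h, Gs]
  congr 1
  · funext e
    simp [sp]
  · funext j
    simp [sp]

theorem jac_eq (c : Ix a → L) (x : Un k m → L) (i : Un k m) (j : Un k m) :
    aeval (Sum.elim c x) (pderiv (Sum.inr j) (FF a s i)) = eval x (pderiv j (Gs c s i)) := by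
  rw [← sp_FF, sp_pderiv, eval_sp]

end

/-- Existence of configurations, from an example. -/
theorem exists_cfg_of {k m : ℕ} {a : Fin (k + 1) → Fin (m + 1)} (s : Sel k m) (c0 : Ix a → ℚ)
    (x0 : Un k m → ℚ) (h1 : ∀ i, Eqn c0 s x0 i = 0) (h2 : Pp c0 s x0 ≠ 0)
    (h3 : (Matrix.of fun i j => eval (Sum.elim c0 x0) (pderiv (Sum.inr j)
      (Eqn (fun e => X (Sum.inl e)) s (fun j => X (Sum.inr j)) i :
        MvPolynomial (Ix a ⊕ Un k m) ℚ))).det ≠ 0) :
    ∃ Δ : MvPolynomial (Ix a) ℚ, Δ ≠ 0 ∧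
    ∀ (K : Type) [Field K] [NumberField K] (c : Ix a → K), aeval c Δ ≠ 0 →
      ∃ (L : Type) (_ : Field L) (_ : NumberField L) (_ : Algebra K L) (x : Un k m → L),
        (∀ i, Eqn (fun e => algebraMap K L (c e)) s x i = 0) ∧
        Pp (fun e => algebraMap K L (c e)) s x ≠ 0 ∧
        (Matrix.of fun i j => eval x (pderiv j (Gs (fun e => algebraMap K L (c e)) s i))).det ≠ 0 := by
  obtain ⟨Δ, hΔ, h⟩ := Helper76.XN.et (E := Ix a) (I := Un k m) (fun i => FF a s i) (GG a s) c0 x0
    (fun i => by rw [eval_FF]; exact h1 _) h3 (by rw [eval_GG]; exact h2)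
  refine ⟨Δ, hΔ, fun K _ _ c hc => ?_⟩
  obtain ⟨L, _, _, _, _, x, g1, g2, g3⟩ := h K c hc
  have hL : NumberField L := NumberField.of_module_finite K L
  refine ⟨L, inferInstance, hL, inferInstance, x, ?_, ?_, ?_⟩
  · intro i
    have h5 := g1 i
    rwa [aeval_FF] at h5
  · rwa [aeval_GG] at g3
  · simpa only [jac_eq] using g2

end Pool.Agent.Helper76.HK
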