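import Mathlib
import Pool.Agent.Helper76.HK.Good
import Pool.Agent.Helper76.HK.Exist
import Pool.Agent.Helper60.HN.ExDual

/-!
# The example: the system, the product, the Jacobian
-/

set_option linter.unusedSectionVars false
set_option linter.unusedVariables false

namespace Pool.Agent.Helper76.HK

open Pool.Agent.Helper64.HK Pool.Agent.Helper24.HK
open Pool.Agent.Helper28.HN (I aff)
open Pool.Agent.Helper60.HN (dl dl_fst dl_snd dl_ext dl_add dl_mul dl_sub dl_eq_zero dl_cast dl_one
  dl_pow aeval_dl)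

/-! ## Naturality -/

section nat

variable {k m : ℕ} {a : Fin (k + 1) → Fin (m + 1)} {S S' : Type*} [CommRing S] [CommRing S']
  (φ : S →+* S') (P : Par k m) (N : Num k m S)

/-- Change of rings. -/
def Num.map : Num k m S' := ⟨fun j d l => φ (N.f j d l), φ N.zy, φ N.θ⟩

theorem map_e (i l : I m) : φ (e_ i l) = e_ i l := by
  unfold e_
  rw [Pi.single_apply, Pi.single_apply, apply_ite φ, map_one, map_zero]

theorem map_e' (i : I m) : (fun l => φ (e_ i l)) = e_ i := funext fun l => map_e φ i l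

theorem map_rl (j : Fin k) (s : Fin m) (d : Fin 3) (l : Fin (m + 1)) :
    φ (rl P j s d l) = rl P j s d l := by
  unfold rl
  rw [map_sub, apply_ite φ, apply_ite φ, map_one, map_zero]

theorem map_sn (i : Fin (m + 1)) : φ (sn a i) = sn a i := by
  unfold sn
  rw [apply_ite φ, map_neg, map_one]

theorem map_gg (i : Fin (m + 1)) (j : Fin k) (d : Fin 3) (l : Fin (m + 1)) :
    φ (gg a P N i j d l) = gg a P (N.map φ) i j d l := by
  unfold gg
  simp only [map_add, map_sum, apply_ite φ, map_mul, map_sub, map_rl, map_sn, map_zero]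
  rfl

theorem map_bs (i : Fin (m + 1)) (l : I m) : φ (bs a i l) = bs a i l := by
  unfold bs
  simp only [map_sum, apply_ite φ, map_e, map_zero]

theorem cons_map {n : ℕ} {α β : Type*} (f : α → β) (x : α) (v : Fin n → α) (i : Fin (n + 1)) :
    f ((Fin.cons x v : Fin (n + 1) → α) i) = (Fin.cons (f x) fun j => f (v j) : Fin (n + 1) → β) i := by
  refine Fin.cases ?_ (fun i => ?_) i <;> simp

theorem map_al (i : Fin (m + 1)) (t : Tm k) (j : Fin (k + 1)) (l : I m) :
    φ (al a P N i t j l) = al a P (N.map φ) i t j l := by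
  have hc : ∀ (A : I m → S) (A' : I m → S') (B : Fin k → I m → S) (B' : Fin k → I m → S'),
      (∀ l, φ (A l) = A' l) → (∀ j l, φ (B j l) = B' j l) →
      φ ((Fin.cons A B : Fin (k + 1) → I m → S) j l) =
        (Fin.cons A' B' : Fin (k + 1) → I m → S') j l := by
    intro A A' B B' h1 h2
    refine Fin.cases ?_ (fun j => ?_) j
    · exact h1 l
    · exact h2 j l
  have hu : ∀ (j1 j : Fin k) (g : I m → S) (g' : I m → S') (B : Fin k → I m → S)
      (B' : Fin k → I m → S') (l : I m), (∀ l, φ (g l) = g' l) → (∀ j l, φ (B j l) = B' j l) →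
      φ (Function.update B j1 g j l) = Function.update B' j1 g' j l := by
    intro j1 j g g' B B' l h1 h2
    by_cases h : j = j1
    · subst h
      rw [Function.update_self, Function.update_self, h1]
    · rw [Function.update_of_ne h, Function.update_of_ne h, h2]
  rcases t with t | ⟨j', d⟩ | t | j'
  · exact hc _ _ _ _ (fun l => map_bs φ i l) fun _ _ => map_e φ _ _
  · refine hc _ _ _ _ (fun l => ?_) fun j l => hu _ _ _ _ _ _ _ (fun l => ?_) fun _ _ => map_e φ _ _
    · split_ifs
      · exact map_e φ _ _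
      · exact map_e φ _ _
    · refine Fin.cases ?_ (fun l => ?_) l
      · exact map_zero φ
      · exact map_gg φ P N i j' d l
  · fin_cases t
    · refine hc _ _ _ _ (fun l => ?_) fun j l => hu _ _ _ _ _ _ _ (fun l => map_e φ _ _) fun _ _ =>
        map_e φ _ _
      split_ifs
      · simp only [Pi.sub_apply, Pi.smul_apply, smul_eq_mul, map_sub, map_mul, map_e]
        rfl
      · exact map_zero φ
    · refine hc _ _ _ _ (fun l => ?_) fun j l => hu _ _ _ _ _ _ _ (fun l => map_e φ _ _) fun _ _ =>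
        hu _ _ _ _ _ _ _ (fun l => map_e φ _ _) fun _ _ => map_e φ _ _
      split_ifs
      · exact map_e φ _ _
      · exact map_zero φ
    · refine hc _ _ _ _ (fun l => ?_) fun j l => hu _ _ _ _ _ _ _ (fun l => map_e φ _ _) fun _ _ =>
        hu _ _ _ _ _ _ _ (fun l => map_e φ _ _) fun _ _ => map_e φ _ _
      split_ifs
      · simp only [Pi.sub_apply, Pi.smul_apply, smul_eq_mul, map_sub, map_mul, map_e]
        rfl
      · exact map_zero φ
  · refine hc _ _ _ _ (fun l => ?_) fun j l => hu _ _ _ _ _ _ _ (fun l => map_e φ _ _) fun _ _ =>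
      map_e φ _ _
    split_ifs
    · exact map_e φ _ _
    · exact map_zero φ

theorem map_be (t : Tm k) (j : Fin (k + 1)) (l : I m) : φ (be P t j l) = be P t j l := by
  have hc : ∀ (A : I m → S) (A' : I m → S') (B : Fin k → I m → S) (B' : Fin k → I m → S'),
      (∀ l, φ (A l) = A' l) → (∀ j l, φ (B j l) = B' j l) →
      φ ((Fin.cons A B : Fin (k + 1) → I m → S) j l) =
        (Fin.cons A' B' : Fin (k + 1) → I m → S') j l := by
    intro A A' B B' h1 h2
    refine Fin.cases ?_ (fun j => ?_) j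
    · exact h1 l
    · exact h2 j l
  have hu : ∀ (j1 j : Fin k) (g : I m → S) (g' : I m → S') (B : Fin k → I m → S)
      (B' : Fin k → I m → S') (l : I m), (∀ l, φ (g l) = g' l) → (∀ j l, φ (B j l) = B' j l) →
      φ (Function.update B j1 g j l) = Function.update B' j1 g' j l := by
    intro j1 j g g' B B' l h1 h2
    by_cases h : j = j1
    · subst h
      rw [Function.update_self, Function.update_self, h1]
    · rw [Function.update_of_ne h, Function.update_of_ne h, h2]
  rcases t with t | ⟨j', d⟩ | t | j'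
  · exact map_e φ _ _
  · refine hc _ _ _ _ (fun l => ?_) fun _ _ => map_e φ _ _
    split_ifs
    · exact map_e φ _ _
    · exact map_e φ _ _
  · fin_cases t
    · exact hc _ _ _ _ (fun l => map_e φ _ _) fun j l =>
        hu _ _ _ _ _ _ _ (fun l => map_e φ _ _) fun _ _ => map_e φ _ _
    · exact hc _ _ _ _ (fun l => map_e φ _ _) fun j l =>
        hu _ _ _ _ _ _ _ (fun l => map_e φ _ _) fun _ _ => map_e φ _ _
    · exact map_e φ _ _
  · exact hc _ _ _ _ (fun l => map_e φ _ _) fun j l =>
      hu _ _ _ _ _ _ _ (fun l => map_e φ _ _) fun _ _ => map_e φ _ _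

theorem map_c0 : (fun e => φ (c0 a P N e)) = c0 a P (N.map φ) := by
  funext e
  unfold c0 cD
  simp only [map_sum, map_mul, map_prod, map_al, map_be]

end nat

/-! ## The values at the point -/

section point

variable {k m : ℕ} {a : Fin (k + 1) → Fin (m + 1)} {P : Par k m} {N : Num k m ℚ} {s : Sel k m}
  {zz : Lt k m → ℚ}

/-- The point. -/
def x0 (zz : Lt k m → ℚ) : Un k m → ℚ := Sum.elim 0 zz

theorem hu0 {S : Type*} [CommRing S] : Hu P (0 : Fin k × Fin (m + 1) → S) :=
  ⟨rfl, fun j _ => by simp⟩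

theorem pt_x0 : pt (x0 zz) = ct (0 : Fin k × Fin (m + 1) → ℚ) := rfl

theorem Ph_eval (j : Fin k) (z : ℚ) : Ph P N j z z = (pP P N j).eval z := by
  unfold Ph pP
  simp [Polynomial.eval_finsetSum]

theorem xz_x0 (hg : Hg a P N) (b : Lt k m) : xz (c0 a P N) s (x0 zz) b =
    Fin.cons 0 (xe P (s.ty b) (zz b)) := by
  unfold xz
  exact xh_eq hg hu0 _ _

theorem qh_x0 (hg : Hg a P N) (b : Lt k m) (z : ℚ) :
    qh (c0 a P N) (s.ty b).succ (pt (x0 zz)) (xz (c0 a P N) s (x0 zz) b) z =
      2 * Ph P N (s.ty b) (zz b) z := by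
  rw [xz_x0 hg, pt_x0, qh_eq hg hu0]
  simp only [Pi.zero_apply, mul_zero, ite_self, add_zero]
  rfl

theorem ty_m' (h : s.m'.1 = P.j1) : s.ty (some s.m') = P.j1 := h

theorem ex_eqn (G : Good a P N s zz) (i : Un k m) : Eqn (c0 a P N) s (x0 zz) i = 0 := by
  have hg := G.g2
  have hz : ∀ d : Fin 3, ∑ j, ∑ l, N.f j d l * (0 : Fin k × Fin (m + 1) → ℚ) (j, l) = 0 := by
    intro d
    simp
  rcases i with e | b
  · unfold Eqn
    simp only
    split_ifs
    · rw [pt_x0, kah_eq hg hu0, G.f, if_pos rfl]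
      show 2 * ((zz none ^ P.ep P.j1 P.h) ^ 2 * (zz none - N.zy + 0)) = 0
      rw [G.zy]
      ring
    · rw [pt_x0, Fh_eq hg hu0, hz, hz, hz]
      ring
    · rw [pt_x0, Ah_eq hg hu0, hz]
      ring
    · rw [pt_x0, Bh_eq hg hu0, hz]
    · have h1 := qh_x0 (s := s) (zz := zz) hg (some s.m') (zz (some s.j))
      rw [ty_m' G.m', G.zm, G.q0] at h1
      rw [G.m']
      refine h1.trans ?_
      ring
    · rfl
  · unfold Eqn
    show psh (c0 a P N) (s.ty b).succ (pt (x0 zz)) (zz b) = 0
    rw [pt_x0, psh_eq hg hu0, Ph_eval, G.psi]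
    simp

theorem psP_x0 (hg : Hg a P N) (j : Fin k) : psP (c0 a P N) j.succ (ct 0) =
    Polynomial.C (sn a (a j.succ)) * pP P N j := by
  have hg' : Hg a P (N.map (Polynomial.C : ℚ →+* Polynomial ℚ)) := by
    intro i hi j l
    rw [← map_gg, hg i hi, map_zero]
  unfold psP
  have h1 : (fun e => Polynomial.C (c0 a P N e)) = c0 a P (N.map Polynomial.C) :=
    map_c0 Polynomial.C P N
  have h2 : (fun i l => Polynomial.C ((ct (0 : Fin k × Fin (m + 1) → ℚ)) i l)) =
      ct (0 : Fin k × Fin (m + 1) → Polynomial ℚ) := by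
    funext i l
    refine Fin.cases ?_ (fun i => ?_) i
    · exact map_zero Polynomial.C
    · refine Fin.cases ?_ (fun l => ?_) l
      · exact map_one Polynomial.C
      · exact map_zero Polynomial.C
  rw [h1, h2, psh_eq hg' hu0, ← map_sn Polynomial.C]
  simp only [Pi.zero_apply, mul_zero, ite_self, add_zero]
  rfl

theorem ex_pp (G : Good a P N s zz) : Pp (c0 a P N) s (x0 zz) ≠ 0 := by
  have hg := G.g2
  have hsn : ∀ i, (sn a i : ℚ) ≠ 0 := by
    intro i h
    have := sn_mul (a := a) (S := ℚ) i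
    rw [h] at this
    norm_num at this
  unfold Pp
  refine mul_ne_zero (mul_ne_zero (mul_ne_zero (mul_ne_zero (mul_ne_zero (mul_ne_zero
    (mul_ne_zero ?_ ?_) ?_) ?_) ?_) ?_) ?_) ?_
  · rw [pt_x0, Mx_one hg hu0, Matrix.det_one]
    exact one_ne_zero
  · refine Finset.prod_ne_zero_iff.2 fun b _ => Finset.prod_ne_zero_iff.2 fun b' _ => ?_
    split_ifs with h
    · exact one_ne_zero
    · exact sub_ne_zero.2 fun h' => h (G.inj h')
  · refine Finset.prod_ne_zero_iff.2 fun b _ => ?_
    rw [pt_x0, Nx_det hg hu0]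
    exact one_ne_zero
  · refine Finset.prod_ne_zero_iff.2 fun q _ => ?_
    rw [pt_x0, kah_eq hg hu0]
    refine mul_ne_zero two_ne_zero ?_
    split_ifs with h
    · refine mul_ne_zero (pow_ne_zero _ (pow_ne_zero _ (G.ne0 _))) ?_
      show zz (some q) - N.zy + 0 ≠ 0
      rw [add_zero, G.zy, sub_ne_zero]
      intro h'
      exact absurd (G.inj h') (by simp)
    · exact pow_ne_zero _ (pow_ne_zero _ (G.ne0 _))
  · refine Finset.prod_ne_zero_iff.2 fun q _ => ?_
    rw [pt_x0, th_eq hg hu0]
    exact hsn _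
  · refine Finset.prod_ne_zero_iff.2 fun q _ => ?_
    rw [pt_x0, psP_x0 hg, Polynomial.derivative_C_mul, Polynomial.eval_mul, Polynomial.eval_C]
    exact mul_ne_zero (hsn _) (G.psd (some q))
  · refine Finset.prod_ne_zero_iff.2 fun b _ => Finset.prod_ne_zero_iff.2 fun b' _ => ?_
    split_ifs with h
    · exact one_ne_zero
    · rw [qh_x0 hg]
      exact mul_ne_zero two_ne_zero (G.q1 b b' (fun h' => h (Or.inl h')) fun h' => h (Or.inr h'))
  · refine Finset.prod_ne_zero_iff.2 fun l _ => ?_
    have h1 : Vm (c0 a P N) (x0 zz) l = Matrix.of fun b i : Fin (m + 1) =>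
        zz (some (l, b)) ^ P.ep l i := by
      ext b i
      unfold Vm
      rw [pt_x0, vh_eq hg hu0]
      rfl
    rw [h1]
    exact G.bas l

end point

end Pool.Agent.Helper76.HK
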