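import Mathlib
import Pool.Agent.Helper76.HK.Jac

/-!
# The example: the Jacobian
-/

set_option linter.unusedSectionVars false
set_option linter.unusedVariables false

namespace Pool.Agent.Helper76.HK

open Pool.Agent.Helper64.HK Pool.Agent.Helper24.HK
open Pool.Agent.Helper28.HN (I aff)
open Pool.Agent.Helper60.HN (dl dl_fst dl_snd dl_ext dl_add dl_mul dl_sub dl_eq_zero dl_cast dl_one
  dl_pow aeval_dl)
open MvPolynomial (X C pderiv aeval eval)

theorem dl_two : (2 : DualNumber ℚ) = dl 2 0 := by rw [← dl_cast, map_ofNat]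

theorem aeval_dlp (a b : ℚ) (p : Polynomial ℚ) :
    Polynomial.aeval (dl a b) p = dl (p.eval a) (b * p.derivative.eval a) := by
  induction p using Polynomial.induction_on' with
  | add p q hp hq =>
    rw [map_add, hp, hq, dl_add, Polynomial.eval_add, Polynomial.derivative_add, Polynomial.eval_add]
    congr 1
    ring
  | monomial n r =>
    rw [Polynomial.aeval_monomial, dl_cast]
    rw [dl_pow, dl_mul, Polynomial.eval_monomial, Polynomial.derivative_monomial,
      Polynomial.eval_monomial]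
    congr 1
    ring

section eqn

variable {k m : ℕ} {a : Fin (k + 1) → Fin (m + 1)} {S : Type*} [CommRing S] (c : Ix a → S)
  (s : Sel k m) (x : Un k m → S)

theorem eqn0 : Eqn c s x (.inl (s.S 0)) = kah c s.f.succ (pt x) (x (.inr none)) := by
  simp only [Eqn, if_true]

theorem eqn1 : Eqn c s x (.inl (s.S 1)) = Fh c (pt x) (x (.inr none)) := by
  simp only [Eqn, s.hS.eq_iff, Fin.isValue, Fin.reduceEq, if_false, if_true]

theorem eqn2 : Eqn c s x (.inl (s.S 2)) = Ah c (pt x) := by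
  simp only [Eqn, s.hS.eq_iff, Fin.isValue, Fin.reduceEq, if_false, if_true]

theorem eqn3 : Eqn c s x (.inl (s.S 3)) = Bh c (pt x) := by
  simp only [Eqn, s.hS.eq_iff, Fin.isValue, Fin.reduceEq, if_false, if_true]

theorem eqn4 : Eqn c s x (.inl (s.S 4)) =
    qh c s.m'.1.succ (pt x) (xz c s x (some s.m')) (x (.inr (some s.j))) := by
  simp only [Eqn, s.hS.eq_iff, Fin.isValue, Fin.reduceEq, if_false, if_true]

theorem eqn5 (e : Fin k × Fin (m + 1)) (h : ∀ i, s.S i ≠ e) : Eqn c s x (.inl e) = x (.inl e) := by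
  simp only [Eqn, (h 0).symm, (h 1).symm, (h 2).symm, (h 3).symm, (h 4).symm, if_false]

end eqn

section jac

variable {k m : ℕ} {a : Fin (k + 1) → Fin (m + 1)} {P : Par k m} {N : Num k m ℚ} {s : Sel k m}
  {zz : Lt k m → ℚ}

/-- The numbers in the dual numbers. -/
noncomputable def Nd (N : Num k m ℚ) : Num k m (DualNumber ℚ) := N.map (algebraMap ℚ (DualNumber ℚ))

theorem sn_dl (i : Fin (m + 1)) : (sn a i : DualNumber ℚ) = dl (sn a i) 0 := by
  rw [← map_sn (algebraMap ℚ (DualNumber ℚ)), dl_cast]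

theorem Ph_dl (j : Fin k) (z w : ℚ) : Ph P (Nd N) j (dl z w) (dl z w) =
    dl ((pP P N j).eval z) (w * (pP P N j).derivative.eval z) := by
  rw [← aeval_dlp]
  unfold Ph pP Nd Num.map
  simp

theorem jac_zero (G : Good a P N s zz) (v : Un k m → ℚ)
    (h : ∀ i, Eqn (c0 a P (Nd N)) s (fun j => dl (x0 zz j) (v j)) i = 0) : v = 0 := by
  have hg : Hg a P (Nd N) := by
    intro i hi j l
    rw [Nd, ← map_gg, G.g2 i hi, map_zero]
  obtain ⟨u, hu'⟩ : ∃ u : Fin k × Fin (m + 1) → DualNumber ℚ, u = fun q => dl 0 (v (.inl q)) :=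
    ⟨_, rfl⟩
  have hpt : pt (fun j => dl (x0 zz j) (v j)) = ct u := by
    rw [hu']
    rfl
  have huq : ∀ q, u q = dl 0 (v (.inl q)) := fun q => by rw [hu']
  -- the coordinates which are not free
  have f5 : ∀ e, (∀ i, s.S i ≠ e) → v (.inl e) = 0 := by
    intro e he
    have h1 := h (.inl e)
    rw [eqn5 _ _ _ e he] at h1
    exact (dl_eq_zero.1 h1).2
  have hu : Hu P u := by
    refine ⟨?_, fun j _ => ?_⟩
    · rw [huq, f5 _ G.hfree]
      exact dl_eq_zero.2 ⟨rfl, rfl⟩
    · rw [huq, dl_mul]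
      exact dl_eq_zero.2 ⟨by ring, by ring⟩
  -- sums
  have hT : ∀ d, ∑ j, ∑ l, (Nd N).f j d l * u (j, l) =
      dl 0 (∑ e, N.f (s.S e).1 d (s.S e).2 * v (.inl (s.S e))) := by
    intro d
    have h1 : ∀ q : Fin k × Fin (m + 1), (Nd N).f q.1 d q.2 * u (q.1, q.2) =
        dl 0 (N.f q.1 d q.2 * v (.inl q)) := by
      intro q
      have : (Nd N).f q.1 d q.2 = dl (N.f q.1 d q.2) 0 := dl_cast _
      rw [this, huq, dl_mul]
      congr 1 <;> ring
    rw [← Fintype.sum_prod_type' (f := fun j l => (Nd N).f j d l * u (j, l)),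
      Finset.sum_congr rfl fun q _ => h1 q]
    have h2 : ∑ q : Fin k × Fin (m + 1), N.f q.1 d q.2 * v (.inl q) =
        ∑ e, N.f (s.S e).1 d (s.S e).2 * v (.inl (s.S e)) := by
      refine (Fintype.sum_of_injective s.S s.hS _ _ (fun q hq => ?_) fun e => rfl).symm
      rw [f5 q fun i hi => hq ⟨i, hi⟩, mul_zero]
    rw [← h2]
    refine dl_ext ?_ ?_
    · rw [TrivSqZeroExt.fst_sum]
      exact Finset.sum_eq_zero fun i _ => dl_fst _ _
    · rw [TrivSqZeroExt.snd_sum]
      exact Finset.sum_congr rfl fun i _ => dl_snd _ _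
  -- `Ah`
  have fA : v (.inl (s.S 2)) = 0 := by
    have h1 := h (.inl (s.S 2))
    rw [eqn2, hpt, Ah_eq hg hu, hT, dl_two, dl_mul] at h1
    have h2 := (dl_eq_zero.1 h1).2
    rw [Fin.sum_univ_five, G.A 0 (by decide), G.A 1 (by decide), G.A 3 (by decide),
      G.A 4 (by decide)] at h2
    have h3 : N.f (s.S 2).1 2 (s.S 2).2 * v (.inl (s.S 2)) = 0 := by linear_combination (1 / 2) * h2
    exact (mul_eq_zero.1 h3).resolve_left G.A2
  have fB : v (.inl (s.S 3)) = 0 := by
    have h1 := h (.inl (s.S 3))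
    rw [eqn3, hpt, Bh_eq hg hu, hT] at h1
    have h2 := (dl_eq_zero.1 h1).2
    rw [Fin.sum_univ_five, G.B 0 (by decide) (by decide), G.B 1 (by decide) (by decide),
      G.B 4 (by decide) (by decide), fA] at h2
    have h3 : N.f (s.S 3).1 1 (s.S 3).2 * v (.inl (s.S 3)) = 0 := by linear_combination h2
    exact (mul_eq_zero.1 h3).resolve_left G.B3
  -- `psh`
  have fP : ∀ b, sn a (a (s.ty b).succ) * (v (.inr b) * (pP P N (s.ty b)).derivative.eval (zz b)) +
      (if s.ty b = P.j1 then N.θ * (zz b - 1) * (zz b ^ P.ep P.j1 P.h * v (.inl (s.S 4)))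
      else 2 * (zz b ^ P.ep (s.ty b) P.q * v (.inl (s.ty b, P.q)))) = 0 := by
    intro b
    have h1 : psh (c0 a P (Nd N)) (s.ty b).succ (pt (fun j => dl (x0 zz j) (v j)))
      (dl (zz b) (v (.inr b))) = 0 := h (.inr b)
    rw [hpt, psh_eq hg hu, Ph_dl, sn_dl, huq, huq, ← G.S4] at h1
    have h3 : (Nd N).θ = dl N.θ 0 := dl_cast _
    rw [h3, dl_two, dl_one, dl_pow, dl_pow] at h1
    split_ifs at h1 ⊢ with hb
    · simp only [dl_mul, dl_add, dl_sub] at h1
      have h2 := (dl_eq_zero.1 h1).2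
      linear_combination h2
    · simp only [dl_mul, dl_add, dl_sub] at h1
      have h2 := (dl_eq_zero.1 h1).2
      linear_combination h2
  have hsn : ∀ i, (sn a i : ℚ) ≠ 0 := by
    intro i h
    have := sn_mul (a := a) (S := ℚ) i
    rw [h] at this
    norm_num at this
  -- the letter `m'`
  have fm : v (.inr (some s.m')) = 0 := by
    have h1 := fP (some s.m')
    have h2 := G.psd (some s.m')
    rw [ty_m' G.m', if_pos rfl, G.zm] at h1
    rw [ty_m' G.m', G.zm] at h2
    have h3 : sn a (a P.j1.succ) * ((pP P N P.j1).derivative.eval 1 * v (.inr (some s.m'))) = 0 := by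
      linear_combination h1
    exact (mul_eq_zero.1 ((mul_eq_zero.1 h3).resolve_left (hsn _))).resolve_left h2
  -- the letter `j`
  have hj12 : P.j2 ≠ P.j1 := P.h12.symm
  have fj : sn a (a P.j2.succ) * (v (.inr (some s.j)) *
      (pP P N P.j2).derivative.eval (zz (some s.j))) +
      2 * (zz (some s.j) ^ P.ep P.j2 P.q * v (.inl (s.S 4))) = 0 := by
    have h1 := fP (some s.j)
    have h2 : s.ty (some s.j) = P.j2 := G.j
    rw [h2, if_neg hj12, ← G.S4] at h1
    exact h1
  -- `qh`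
  have fq : v (.inr (some s.j)) * (∑ l, N.f P.j1 1 l + 2 * zz (some s.j) * ∑ l, N.f P.j1 2 l) +
      sn a (a P.j1.succ) * (N.θ * (zz (some s.j) - 1) * v (.inl (s.S 4))) = 0 := by
    have h1 := h (.inl (s.S 4))
    have h2 : xz (c0 a P (Nd N)) s (fun j => dl (x0 zz j) (v j)) (some s.m') =
        Fin.cons 0 (xe P P.j1 (dl 1 0)) := by
      unfold xz
      rw [ty_m' G.m', hpt, xh_eq hg hu]
      congr 2
      show dl (zz (some s.m')) (v (.inr (some s.m'))) = _
      rw [G.zm, fm]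
    rw [eqn4, h2, hpt, G.m', qh_eq hg hu, if_pos rfl, huq, ← G.S4, sn_dl] at h1
    have h3 : (Nd N).θ = dl N.θ 0 := dl_cast _
    have h4 : ∀ l, xe P P.j1 (dl 1 0) l = 1 := by
      intro l
      unfold xe
      rw [← dl_one, one_pow]
    have h5 : ∀ d, ∑ l, (Nd N).f P.j1 d l * xe P P.j1 (dl 1 0) l = dl (∑ l, N.f P.j1 d l) 0 := by
      intro d
      rw [← dl_cast (∑ l, N.f P.j1 d l), map_sum]
      exact Finset.sum_congr rfl fun l _ => by rw [h4, mul_one]; rfl
    have h6 : x0 zz (.inr (some s.j)) = zz (some s.j) := rfl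
    rw [Fin.sum_univ_three, h5, h5, h5, h4, h3, h6, dl_one, dl_two] at h1
    simp only [dl_pow, dl_mul, dl_add, dl_sub] at h1
    have h2 := (dl_eq_zero.1 h1).2
    simp only [Fin.coe_ofNat_eq_mod, Nat.zero_mod, pow_zero, Nat.one_mod, pow_one] at h2
    norm_num at h2
    linear_combination h2
  -- the free coordinate `S 4`
  have g4 : v (.inl (s.S 4)) = 0 := by
    by_contra hne
    refine G.thc ?_
    have h1 : v (.inl (s.S 4)) * (sn a (a P.j1.succ) * N.θ * (zz (some s.j) - 1) *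
        (pP P N P.j2).derivative.eval (zz (some s.j))) = v (.inl (s.S 4)) *
        (2 * sn a (a P.j2.succ) * zz (some s.j) ^ P.ep P.j2 P.q *
        (∑ l, N.f P.j1 1 l + 2 * zz (some s.j) * ∑ l, N.f P.j1 2 l)) := by
      linear_combination (pP P N P.j2).derivative.eval (zz (some s.j)) * fq -
        sn a (a P.j2.succ) * (∑ l, N.f P.j1 1 l + 2 * zz (some s.j) * ∑ l, N.f P.j1 2 l) * fj +
        (v (.inr (some s.j)) * (pP P N P.j2).derivative.eval (zz (some s.j)) *
          (∑ l, N.f P.j1 1 l + 2 * zz (some s.j) * ∑ l, N.f P.j1 2 l)) *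
          sn_mul (a := a) (S := ℚ) (a P.j2.succ)
    exact mul_left_cancel₀ hne h1
  -- the starting letter
  have gy : v (.inr none) = 0 := by
    have h1 := fP none
    have h2 : s.ty none = P.j1 := G.f
    have h3 := G.psd none
    rw [h2, if_pos rfl, g4] at h1
    rw [h2] at h3
    have h4 : sn a (a P.j1.succ) * ((pP P N P.j1).derivative.eval (zz none) * v (.inr none)) = 0 := by
      linear_combination h1
    exact (mul_eq_zero.1 ((mul_eq_zero.1 h4).resolve_left (hsn _))).resolve_left h3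
  -- `kah`
  have g0 : v (.inl (s.S 0)) = 0 := by
    have h1 := h (.inl (s.S 0))
    have h2 : x0 zz (.inr none) = zz none := rfl
    have h3 : (Nd N).zy = dl N.zy 0 := dl_cast _
    rw [eqn0, hpt, kah_eq hg hu, G.f, if_pos rfl, huq, ← G.S0, h2, gy, h3, G.zy, dl_two] at h1
    simp only [dl_pow, dl_mul, dl_add, dl_sub] at h1
    have h4 := (dl_eq_zero.1 h1).2
    have h5 : 2 * (zz none ^ P.ep P.j1 P.h) ^ 2 * v (.inl (s.S 0)) = 0 := by
      linear_combination h4
    exact (mul_eq_zero.1 h5).resolve_left (mul_ne_zero two_ne_zero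
      (pow_ne_zero _ (pow_ne_zero _ (G.ne0 _))))
  -- `Fh`
  have g1 : v (.inl (s.S 1)) = 0 := by
    have h1 := h (.inl (s.S 1))
    have h2 : x0 zz (.inr none) = zz none := rfl
    rw [eqn1, hpt, Fh_eq hg hu, hT, hT, hT, h2, gy, dl_two] at h1
    simp only [dl_pow, dl_mul, dl_add, dl_sub] at h1
    have h3 := (dl_eq_zero.1 h1).2
    rw [Fin.sum_univ_five, Fin.sum_univ_five, Fin.sum_univ_five, G.A 0 (by decide),
      G.A 1 (by decide), G.A 3 (by decide), G.A 4 (by decide), G.B 0 (by decide) (by decide),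
      G.B 1 (by decide) (by decide), G.B 4 (by decide) (by decide), fA, fB, g0, g4] at h3
    have h5 : N.f (s.S 1).1 0 (s.S 1).2 * v (.inl (s.S 1)) = 0 := by
      linear_combination (1 / 2) * h3
    exact (mul_eq_zero.1 h5).resolve_left G.C1
  have gu : ∀ e, v (.inl e) = 0 := by
    intro e
    by_cases he : ∃ i, s.S i = e
    · obtain ⟨i, rfl⟩ := he
      fin_cases i
      · exact g0
      · exact g1
      · exact fA
      · exact fB
      · exact g4
    · exact f5 e fun i hi => he ⟨i, hi⟩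
  funext i
  rcases i with e | b
  · exact gu e
  · have h1 := fP b
    rw [gu, gu] at h1
    simp only [mul_zero, ite_self, add_zero] at h1
    exact (mul_eq_zero.1 ((mul_eq_zero.1 h1).resolve_left (hsn _))).resolve_right (G.psd b)

/-- The Jacobian of the square system is invertible. -/
theorem ex_jac (G : Good a P N s zz) :
    (Matrix.of fun i j => eval (Sum.elim (c0 a P N) (x0 zz)) (pderiv (Sum.inr j)
      (Eqn (fun e => X (Sum.inl e)) s (fun j => X (Sum.inr j)) i :
        MvPolynomial (Ix a ⊕ Un k m) ℚ))).det ≠ 0 := by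
  intro h0
  obtain ⟨v, hv, hv0⟩ := Matrix.exists_mulVec_eq_zero_iff.2 h0
  refine hv (jac_zero G v fun i => ?_)
  have h1 := aeval_dl (Sum.elim (c0 a P N) (x0 zz)) (Sum.elim (0 : Ix a → ℚ) v)
    (Eqn (fun e => X (Sum.inl e)) s (fun j => X (Sum.inr j)) i : MvPolynomial (Ix a ⊕ Un k m) ℚ)
  have h2 : (aeval (fun t => dl (Sum.elim (c0 a P N) (x0 zz) t) (Sum.elim (0 : Ix a → ℚ) v t)))
      (Eqn (fun e => X (Sum.inl e)) s (fun j => X (Sum.inr j)) i : MvPolynomial (Ix a ⊕ Un k m) ℚ) =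
      Eqn (c0 a P (Nd N)) s (fun j => dl (x0 zz j) (v j)) i := by
    have h3 := Pool.Agent.Helper45.HK.map_Eqn (aeval (R := ℚ) (fun t =>
      dl (Sum.elim (c0 a P N) (x0 zz) t) (Sum.elim (0 : Ix a → ℚ) v t)) :
      MvPolynomial (Ix a ⊕ Un k m) ℚ →ₐ[ℚ] DualNumber ℚ).toRingHom
      (fun e => X (Sum.inl e)) s (fun j => X (Sum.inr j)) i
    refine h3.trans ?_
    congr 1
    · rw [Nd, ← map_c0]
      funext t
      show aeval _ (X (Sum.inl t)) = _
      rw [MvPolynomial.aeval_X]
      show dl (c0 a P N t) 0 = algebraMap ℚ (DualNumber ℚ) (c0 a P N t)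
      rw [dl_cast]
    · funext t
      show aeval _ (X (Sum.inr t)) = _
      rw [MvPolynomial.aeval_X]
      rfl
  have h4 : (eval (Sum.elim (c0 a P N) (x0 zz)))
      (Eqn (fun e => X (Sum.inl e)) s (fun j => X (Sum.inr j)) i :
        MvPolynomial (Ix a ⊕ Un k m) ℚ) = 0 := (eval_FF s _ _ i).trans (ex_eqn G i)
  rw [h2, h4] at h1
  rw [h1]
  refine dl_eq_zero.2 ⟨rfl, ?_⟩
  have h5 := congrFun hv0 i
  rw [Fintype.sum_sum_type]
  simp only [Sum.elim_inl, Pi.zero_apply, zero_mul, Finset.sum_const_zero, zero_add, Sum.elim_inr]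
  refine Eq.trans ?_ h5
  rw [Matrix.mulVec, dotProduct]
  exact Finset.sum_congr rfl fun j _ => mul_comm _ _

/-- From the numbers to configurations. -/
theorem exists_cfg_of_good (G : Good a P N s zz) : ∃ Δ : MvPolynomial (Ix a) ℚ, Δ ≠ 0 ∧
    ∀ (K : Type) [Field K] [NumberField K] (c : Ix a → K), aeval c Δ ≠ 0 →
      ∃ (L : Type) (_ : Field L) (_ : NumberField L) (_ : Algebra K L) (x : Un k m → L),
        (∀ i, Eqn (fun e => algebraMap K L (c e)) s x i = 0) ∧
        Pp (fun e => algebraMap K L (c e)) s x ≠ 0 ∧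
        (Matrix.of fun i j => eval x (pderiv j (Gs (fun e => algebraMap K L (c e)) s i))).det ≠ 0 :=
  exists_cfg_of s (c0 a P N) (x0 zz) (ex_eqn G) (ex_pp G) (ex_jac G)

end jac

end Pool.Agent.Helper76.HK
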