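import Mathlib
import Pool.Agent.Helper76.HK.Jac2
import Pool.Agent.Helper57.HK.Tail
import Pool.Agent.Helper82.HK.Head1
import Pool.Agent.Helper88.HK.Head2

/-!
# Existence of configurations for general coefficients (at least three factors)
-/

namespace Pool.Agent.Helper76.HK

open MvPolynomial Pool.Agent.Helper64.HK Pool.Agent.Helper24.HK
open Pool.Agent.Helper28.HN (I aff)

theorem exists_good {k m : ℕ} (hk : 2 ≤ k) (hm : 2 ≤ m) (a : Fin (k + 1) → Fin (m + 1)) :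
    ∃ P N s zz, Good (k := k) a P N s zz := by
  have h12 : (⟨0, by omega⟩ : Fin k) ≠ ⟨1, by omega⟩ := by
    intro h
    exact absurd (congrArg Fin.val h) (by simp)
  by_cases h : a (⟨0, by omega⟩ : Fin k).succ = a 0
  · obtain ⟨H, hH⟩ := Pool.Agent.Helper82.HK.HeadOne.head1 hm
    exact Pool.Agent.Helper57.HK.Tail.good_of_head hm _ _ h12 a H (Or.inl ⟨hH, h⟩)
  · obtain ⟨i, hi⟩ := Fin.exists_succAbove_eq (Ne.symm h)
    obtain ⟨H, hH⟩ := Pool.Agent.Helper88.HK.head2 hm i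
    exact Pool.Agent.Helper57.HK.Tail.good_of_head hm _ _ h12 a H (Or.inr ⟨i, hH, hi⟩)

theorem exists_cfg {k m : ℕ} (hk : 2 ≤ k) (hm : 2 ≤ m) (a : Fin (k + 1) → Fin (m + 1)) :
    ∃ s : Sel k m, ∃ Δ : MvPolynomial (Ix a) ℚ, Δ ≠ 0 ∧
    ∀ (K : Type) [Field K] [NumberField K] (c : Ix a → K), aeval c Δ ≠ 0 →
      ∃ (L : Type) (_ : Field L) (_ : NumberField L) (_ : Algebra K L) (x : Un k m → L),
        (∀ i, Eqn (fun e => algebraMap K L (c e)) s x i = 0) ∧
        Pp (fun e => algebraMap K L (c e)) s x ≠ 0 ∧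
        (Matrix.of fun i j => eval x (pderiv j (Gs (fun e => algebraMap K L (c e)) s i))).det ≠ 0 := by
  obtain ⟨P, N, s, zz, G⟩ := exists_good hk hm a
  exact ⟨s, exists_cfg_of_good G⟩

end Pool.Agent.Helper76.HK
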